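import Mathlib

/-!
# JOB AbsA: ultralimits of subgroups, subgroups of finite index

PROOFS.
* `ulim`: the set is closed under products and inverses (`Filter.Eventually.and`), `1` is in it (`Filter.Eventually.of_forall`).
* `ulim_star`: for `x ∈ L` and every `i` there is `f ∈ F` with `f⁻¹ * x ∈ U i`. `F` is finite, so there is one `f` with `∀ᶠ i in 𝔽, f⁻¹ * x ∈ U i` (`Ultrafilter.eventually_exists_mem_iff` for the finite set `F`, or `Ultrafilter.finite_biUnion_mem_iff`, `Ultrafilter.eventually_or`), so `f⁻¹ * x ∈ V`.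
* `finite_between`: a subgroup `V` with `U ≤ V ≤ K` is determined by the subset `{f ∈ F | f ∈ V}` of `F`: `x ∈ V ↔ x ∈ K ∧ ∃ f ∈ F, f ∈ V ∧ f⁻¹ * x ∈ U` (`f⁻¹ * x ∈ U ≤ V`). `Set.Finite.of_injOn` into the finite set of the subsets of `F` (`Set.Finite.powerset`-like).
* `index_ne`: `K` is covered by the cosets `f * U`, `f ∈ F`: the map `F → K ⧸ U.subgroupOf K`, `f ↦ f`, is surjective, so the quotient is finite (`Finite.of_surjective`), `Subgroup.relIndex = (U.subgroupOf K).index`, `Subgroup.index_ne_zero_of_finite`.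
-/

set_option autoImplicit false

namespace MP0d06d9

open Subgroup

variable {G : Type*} [Group G]

theorem ulim {ι : Type*} (𝔽 : Filter ι) (U : ι → Subgroup G) :
    ∃ V : Subgroup G, ∀ x, x ∈ V ↔ ∀ᶠ i in 𝔽, x ∈ U i := by
  refine ⟨{ carrier := {x | ∀ᶠ i in 𝔽, x ∈ U i}
            mul_mem' := ?_
            one_mem' := ?_
            inv_mem' := ?_ }, fun x => Iff.rfl⟩
  · intro a b ha hb
    exact (Filter.Eventually.and ha hb).mono fun i h => (U i).mul_mem h.1 h.2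
  · exact Filter.Eventually.of_forall fun i => (U i).one_mem
  · intro a ha
    exact Filter.Eventually.mono ha fun i h => (U i).inv_mem h

theorem ulim_star {ι : Type*} (𝔽 : Ultrafilter ι) (U : ι → Subgroup G) {V F : Subgroup G}
    (hV : ∀ x, x ∈ V ↔ ∀ᶠ i in (𝔽 : Filter ι), x ∈ U i) (hF : Finite F) (x : G)
    (h : ∀ᶠ i in (𝔽 : Filter ι), ∃ f ∈ F, f⁻¹ * x ∈ U i) : ∃ f ∈ F, f⁻¹ * x ∈ V := by
  have hF' : (F : Set G).Finite := Set.toFinite (F : Set G)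
  have h2 : ∀ᶠ i in (𝔽 : Filter ι), ∃ f ∈ (F : Set G), f⁻¹ * x ∈ U i := h
  rw [Ultrafilter.eventually_exists_mem_iff hF'] at h2
  obtain ⟨f, hf, h3⟩ := h2
  exact ⟨f, hf, (hV _).2 h3⟩

theorem finite_between {K U F : Subgroup G} (hF : Finite F)
    (h : ∀ x ∈ K, ∃ f ∈ F, f⁻¹ * x ∈ U) : {V : Subgroup G | U ≤ V ∧ V ≤ K}.Finite := by
  have hF' : (F : Set G).Finite := Set.toFinite (F : Set G)
  have hle : ∀ V₁ V₂ : Subgroup G, U ≤ V₁ → V₁ ≤ K → U ≤ V₂ →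
      {f | f ∈ F ∧ f ∈ V₁} = {f | f ∈ F ∧ f ∈ V₂} → V₁ ≤ V₂ := by
    intro V₁ V₂ h1 h1K h2 he x hx
    obtain ⟨f, hf, hfx⟩ := h x (h1K hx)
    have h3 : f ∈ V₁ := by
      have h4 : f = x * (f⁻¹ * x)⁻¹ := by group
      rw [h4]
      exact V₁.mul_mem hx (V₁.inv_mem (h1 hfx))
    have h5 : f ∈ {f | f ∈ F ∧ f ∈ V₂} := by
      rw [← he]
      exact ⟨hf, h3⟩
    have h6 : x = f * (f⁻¹ * x) := by group
    rw [h6]
    exact V₂.mul_mem h5.2 (h2 hfx)
  refine Set.Finite.of_injOn (f := fun V : Subgroup G => {f | f ∈ F ∧ f ∈ V})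
    (t := {s | s ⊆ (F : Set G)}) ?_ ?_ hF'.finite_subsets
  · intro V _ f hf
    exact hf.1
  · intro V₁ h1 V₂ h2 he
    exact le_antisymm (hle V₁ V₂ h1.1 h1.2 h2.1 he) (hle V₂ V₁ h2.1 h2.2 h1.1 he.symm)

theorem index_ne {K U F : Subgroup G} (hF : Finite F) (hFK : F ≤ K)
    (h : ∀ x ∈ K, ∃ f ∈ F, f⁻¹ * x ∈ U) : U.relIndex K ≠ 0 := by
  have hfin : Finite (K ⧸ U.subgroupOf K) := by
    refine Finite.of_surjective
      (fun f : F => (QuotientGroup.mk (⟨f.1, hFK f.2⟩ : K) : K ⧸ U.subgroupOf K)) ?_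
    intro q
    obtain ⟨x, rfl⟩ := QuotientGroup.mk_surjective q
    obtain ⟨f, hf, hfx⟩ := h x.1 x.2
    refine ⟨⟨f, hf⟩, ?_⟩
    show (QuotientGroup.mk (⟨f, hFK hf⟩ : K) : K ⧸ U.subgroupOf K) = QuotientGroup.mk x
    rw [QuotientGroup.eq, mem_subgroupOf]
    exact hfx
  exact Subgroup.index_ne_zero_of_finite

end MP0d06d9
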