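import Pool.Agent.Lib.MP_0d06d9_al.AbsA

/-!
# JOB AbsB: a family of subgroups satisfying the sparse condition is finite

PROOF of `fin_family`. Suppose `𝒰` is infinite; let `U : ℕ → Subgroup G` be injective with values in `𝒰` (`Set.Infinite.natEmbedding`). `ulim (hyperfilter ℕ) U` gives `V`.
`F` from `h K le_rfl`. By `ulim_star` (with `Filter.Eventually.of_forall`) every `x ∈ K` has `f ∈ F` with `f⁻¹ * x ∈ V`. `finite_between`: only finitely many `n` satisfy `V ≤ U n` (as `U n ≤ K` and `U` is injective: `Set.Finite.preimage`), so `∀ᶠ n in hyperfilter ℕ, ¬ V ≤ U n`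
(`Filter.hyperfilter_le_cofinite`, `Set.Finite.compl_mem_hyperfilter`).
CLAIM: there are sequences `n : ℕ → ℕ`, `x : ℕ → G` with `x j ∈ V`, `x j ∉ U (n j)`, and `x i ∈ U (n j)` for `i < j`. Use `exists_seq_of_forall_finset_exists` (Mathlib; `P (n, x) = (x ∈ V ∧ x ∉ U n)`, `r (n, x) (n', x') = (x ∈ U n')`): given a finite set `s` of pairs with `x ∈ V`, the set of the `n'` with `x ∈ U n'` for all the
`x` of the pairs is in the hyperfilter (`hV`, `Filter.eventually_all_finset`-like: `(Filter.eventually_all_finset s).2`), so with the condition `¬ V ≤ U n'` there is such an `n'` (`Filter.Eventually.exists`), and then `x' ∈ V`, `x' ∉ U n'`.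
Let `L = closure (Set.range x)`: `L ≤ K` as `x j ∈ V ≤ K` (`V ≤ K`: `x ∈ V` is in some `U n ≤ K`). `F'` from `h L`. `F'` is finite and contained in `L`, so there is `m` with `F' ≤ closure {x i | i < m}`: every element of `L` is in some `closure {x i | i < m}` (`Subgroup.closure_induction`, or `Subgroup.mem_iSup_of_directed`), take the maximum over the
finite `F'` (`Finite.exists_le` / `Finset.sup`). So `F' ≤ U (n m)`. `h` for `U (n m)` and `x m ∈ L`: `f ∈ F'` with `f⁻¹ * x m ∈ U (n m)`, so `x m ∈ U (n m)`: contradiction.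
-/

set_option autoImplicit false

namespace MP0d06d9

open Subgroup

variable {G : Type*} [Group G]

theorem fin_family (K : Subgroup G) (𝒰 : Set (Subgroup G)) (hU : ∀ U ∈ 𝒰, U ≤ K)
    (h : ∀ L : Subgroup G, L ≤ K → ∃ F : Subgroup G, F ≤ L ∧ Finite F ∧
      ∀ U ∈ 𝒰, ∀ x ∈ L, ∃ f ∈ F, f⁻¹ * x ∈ U) : 𝒰.Finite := by
  by_contra hinf
  have hinf' : 𝒰.Infinite := hinf
  let φ := hinf'.natEmbedding
  let U : ℕ → Subgroup G := fun n => (φ n : Subgroup G)
  have hUmem : ∀ n, U n ∈ 𝒰 := fun n => (φ n).2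
  have hUinj : Function.Injective U := fun a b hab => φ.injective (Subtype.ext hab)
  obtain ⟨V, hV⟩ := ulim (Filter.hyperfilter ℕ : Filter ℕ) U
  obtain ⟨F, -, hFfin, hF⟩ := h K le_rfl
  have hVstar : ∀ x ∈ K, ∃ f ∈ F, f⁻¹ * x ∈ V := fun x hx =>
    ulim_star (Filter.hyperfilter ℕ) U hV hFfin x
      (Filter.Eventually.of_forall fun n => hF (U n) (hUmem n) x hx)
  have hfb := finite_between hFfin hVstar
  have hfin : {n | V ≤ U n}.Finite := by
    have h1 : {n | V ≤ U n} = U ⁻¹' {W | V ≤ W ∧ W ≤ K} := by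
      ext n
      exact ⟨fun h2 => ⟨h2, hU _ (hUmem n)⟩, fun h2 => h2.1⟩
    rw [h1]
    exact hfb.preimage hUinj.injOn
  have hev : ∀ᶠ n in (Filter.hyperfilter ℕ : Filter ℕ), ¬ V ≤ U n :=
    Set.Finite.compl_mem_hyperfilter hfin
  have hVK : V ≤ K := by
    intro x hx
    obtain ⟨n, hn⟩ := ((hV x).1 hx).exists
    exact hU _ (hUmem n) hn
  obtain ⟨f, hf1, hf2⟩ := exists_seq_of_forall_finset_exists
    (fun p : ℕ × G => p.2 ∈ V ∧ p.2 ∉ U p.1) (fun p q => p.2 ∈ U q.1) (by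
      intro s hs
      have h1 : ∀ᶠ n in (Filter.hyperfilter ℕ : Filter ℕ), ∀ p ∈ s, p.2 ∈ U n :=
        (Filter.eventually_all_finset s).2 fun p hp => (hV p.2).1 (hs p hp).1
      obtain ⟨n, hn1, hn2⟩ := (h1.and hev).exists
      obtain ⟨x, hx1, hx2⟩ := SetLike.not_le_iff_exists.1 hn2
      exact ⟨(n, x), ⟨hx1, hx2⟩, hn1⟩)
  obtain ⟨F', hF'L, hF'fin, hF'⟩ := h (closure (Set.range fun j => (f j).2)) (by
    rw [closure_le]
    rintro _ ⟨j, rfl⟩
    exact hVK (hf1 j).1)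
  have hcov : ∀ y ∈ closure (Set.range fun j => (f j).2),
      ∃ m : ℕ, y ∈ closure {z | ∃ i < m, (f i).2 = z} := by
    intro y hy
    induction hy using closure_induction with
    | mem x hx =>
      obtain ⟨j, rfl⟩ := hx
      exact ⟨j + 1, subset_closure ⟨j, Nat.lt_succ_self j, rfl⟩⟩
    | one => exact ⟨0, one_mem _⟩
    | mul x y _ _ hx hy =>
      obtain ⟨m1, h1⟩ := hx
      obtain ⟨m2, h2⟩ := hy
      refine ⟨max m1 m2, mul_mem (closure_mono ?_ h1) (closure_mono ?_ h2)⟩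
      · rintro z ⟨i, hi, rfl⟩
        exact ⟨i, lt_of_lt_of_le hi (le_max_left _ _), rfl⟩
      · rintro z ⟨i, hi, rfl⟩
        exact ⟨i, lt_of_lt_of_le hi (le_max_right _ _), rfl⟩
    | inv x _ hx =>
      obtain ⟨m, h1⟩ := hx
      exact ⟨m, inv_mem h1⟩
  choose! μ hμ using hcov
  obtain ⟨m, hm⟩ := Finite.exists_le (fun y : F' => μ (y : G))
  have hF'm : F' ≤ U (f m).1 := by
    intro y hy
    have h1 := hμ y (hF'L hy)
    have h2 : μ y ≤ m := hm ⟨y, hy⟩
    have h3 : closure {z | ∃ i < μ y, (f i).2 = z} ≤ U (f m).1 := by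
      rw [closure_le]
      rintro z ⟨i, hi, rfl⟩
      exact hf2 i m (lt_of_lt_of_le hi h2)
    exact h3 h1
  obtain ⟨g, hg1, hg2⟩ := hF' (U (f m).1) (hUmem _) (f m).2 (subset_closure ⟨m, rfl⟩)
  apply (hf1 m).2
  have h4 := mul_mem (hF'm hg1) hg2
  rwa [mul_inv_cancel_left] at h4

end MP0d06d9
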