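import Mathlib

/-!
# JOB CLa: fixed points in invariant cosets

PROOF. Strong induction on `Nat.card A`, for all `A` in the universe (state an auxiliary theorem `∀ n, ∀ (A : Type u) [..], Nat.card A = n → ..`, use `Nat.strong_induction_on`).
If `A` is trivial (`Subsingleton A`), `n = 1`. Otherwise `commutator A < ⊤` (`Group.IsSolvable.commutator_lt_top_of_nontrivial`), let `A' ≥ commutator A` be a coatom
(`eq_top_or_exists_le_coatom`, the lattice of subgroups of a finite group is finite). `A'` is normal (it contains the commutator subgroup: `a x a⁻¹ = ⁅a, x⁆ x`).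
There is a prime `p` and a Sylow `p`-subgroup `Q` of `A` with `¬ Q ≤ A'`: otherwise every prime power dividing `Nat.card A` divides `Nat.card A'`
(`Nat.dvd_iff_prime_pow_dvd_dvd`, `Sylow.card_eq_multiplicity`; `Subgroup.card_dvd_of_le`), so `Nat.card A ∣ Nat.card A'` and `A' = ⊤` (`Subgroup.eq_top_of_card_eq`, `Subgroup.card_subgroup_dvd_card`).
So `A' ⊔ Q = ⊤` and `p ∣ Nat.card A` (`Q ≠ ⊥`), so `p` does not divide `Nat.card N`. The induction hypothesis for `A'` (with `φ.comp A'.subtype`; `Nat.card A' < Nat.card A`; coprime by `Nat.Coprime.coprime_dvd_left`)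
gives `n₀ ∈ N` with `y₀ = g * n₀` fixed by `A'`. Let `Y = {y : E // g⁻¹ * y ∈ N ∧ ∀ a ∈ A', φ a y = y}`. `Y` is in bijection with the subgroup `C` of the elements of `N` fixed by `A'` (`y ↦ y₀⁻¹ y`),
so `Nat.card Y` divides `Nat.card N` (`Subgroup.card_subgroup_dvd_card` for the subgroup of `N`), and `p` does not divide `Nat.card Y`. `Q` acts on `Y` by `q • y = φ q y`: `g⁻¹ φ q y = (g⁻¹ φ q g) φ q (g⁻¹ y) ∈ N`, and for `a ∈ A'`: `φ a (φ q y) = φ q (φ (q⁻¹ a q) y) = φ q y`.
`IsPGroup.nonempty_fixed_point_of_prime_not_dvd_card` (for the `p`-group `Q`): `y ∈ Y` fixed by `Q` and by `A'`; the elements of `A` fixing `y` form a subgroup containing `A'` and `Q`, so it is `⊤`. `n = g⁻¹ * y`.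
-/

set_option autoImplicit false

namespace MP0d06d9

private theorem cla_exists {A : Type*} [Group A] [Finite A] (A' : Subgroup A) (h : A' ≠ ⊤) :
    ∃ (p : ℕ) (_ : Fact p.Prime) (Q : Sylow p A), ¬ (Q : Subgroup A) ≤ A' := by
  by_contra hno
  push Not at hno
  apply h
  apply Subgroup.eq_top_of_card_eq
  apply Nat.dvd_antisymm (Subgroup.card_subgroup_dvd_card A')
  rw [Nat.dvd_iff_prime_pow_dvd_dvd]
  intro p e hp he
  have : Fact p.Prime := ⟨hp⟩
  obtain ⟨Q⟩ : Nonempty (Sylow p A) := Sylow.nonempty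
  have h1 := Subgroup.card_dvd_of_le (hno p ⟨hp⟩ Q)
  rw [Sylow.card_eq_multiplicity] at h1
  refine dvd_trans ?_ h1
  exact Nat.pow_dvd_pow p ((hp.pow_dvd_iff_le_factorization Nat.card_pos.ne').1 he)

open scoped commutatorElement in
private theorem cla_aux {E : Type*} [Group E] (N : Subgroup E) [Finite N] (g : E) :
    ∀ n : ℕ, ∀ (A : Type*) [Group A] [Finite A] [Group.IsSolvable A] (φ : A →* MulAut E),
      Nat.card A = n → (∀ a, ∀ n ∈ N, φ a n ∈ N) → (Nat.card A).Coprime (Nat.card N) →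
      (∀ a, g⁻¹ * φ a g ∈ N) → ∃ n ∈ N, ∀ a, φ a (g * n) = g * n := by
  intro n
  induction n using Nat.strong_induction_on with
  | _ n ih =>
  intro A _ _ _ φ hA hN hco hg
  rcases subsingleton_or_nontrivial A with hs | hn
  · refine ⟨1, N.one_mem, fun a => ?_⟩
    rw [Subsingleton.elim a 1, map_one]
    rfl
  have h1 : commutator A < ⊤ := Group.IsSolvable.commutator_lt_top_of_nontrivial A
  obtain ⟨A', hA', hle⟩ := (eq_top_or_exists_le_coatom (commutator A)).resolve_left h1.ne
  have hnorm : ∀ a x, x ∈ A' → a * x * a⁻¹ ∈ A' := by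
    intro a x hx
    have h2 : ⁅a, x⁆ ∈ A' := hle (by
      rw [commutator_def]
      exact Subgroup.commutator_mem_commutator (Subgroup.mem_top a) (Subgroup.mem_top x))
    have h3 : a * x * a⁻¹ = ⁅a, x⁆ * x := by
      rw [commutatorElement_def]
      group
    rw [h3]
    exact A'.mul_mem h2 hx
  obtain ⟨p, hp, Q, hQ⟩ := cla_exists A' hA'.1
  have hsup : A' ⊔ (Q : Subgroup A) = ⊤ := by
    apply hA'.2
    refine lt_of_le_of_ne le_sup_left fun h => hQ ?_
    rw [h]
    exact le_sup_right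
  have hpA : p ∣ Nat.card A := by
    by_contra h2
    apply hQ
    have h3 : Nat.card Q = 1 := by
      rw [Sylow.card_eq_multiplicity, Nat.factorization_eq_zero_of_not_dvd h2, pow_zero]
    rw [(Subgroup.card_eq_one (H := (Q : Subgroup A))).1 h3]
    exact bot_le
  have hpN : ¬ p ∣ Nat.card N := by
    intro h2
    have h3 := Nat.dvd_gcd hpA h2
    rw [hco] at h3
    exact hp.out.one_lt.ne' (Nat.dvd_one.1 h3)
  have hlt : Nat.card A' < n := by
    rw [← hA]
    refine lt_of_le_of_ne (Nat.le_of_dvd Nat.card_pos (Subgroup.card_subgroup_dvd_card A')) ?_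
    intro h2
    exact hA'.1 (Subgroup.eq_top_of_card_eq _ h2)
  obtain ⟨n₀, hn₀, hfix⟩ := ih _ hlt A' (φ.comp A'.subtype) rfl (fun a => hN a)
    (Nat.Coprime.coprime_dvd_left (Subgroup.card_subgroup_dvd_card A') hco) (fun a => hg a)
  have hfix' : ∀ a ∈ A', φ a (g * n₀) = g * n₀ := fun a ha => hfix ⟨a, ha⟩
  let C : Subgroup N :=
    { carrier := {c | ∀ a ∈ A', φ a (c : E) = c}
      mul_mem' := by
        intro c d hc hd a ha
        change φ a ((c : E) * d) = c * d
        rw [map_mul, hc a ha, hd a ha]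
      one_mem' := by
        intro a ha
        exact map_one (φ a)
      inv_mem' := by
        intro c hc a ha
        change φ a ((c : E)⁻¹) = (c : E)⁻¹
        rw [map_inv, hc a ha] }
  let Y := {y : E // g⁻¹ * y ∈ N ∧ ∀ a ∈ A', φ a y = y}
  let e : Y ≃ C :=
    { toFun := fun y => ⟨⟨(g * n₀)⁻¹ * y.1, by
        have h2 : (g * n₀)⁻¹ * y.1 = n₀⁻¹ * (g⁻¹ * y.1) := by group
        rw [h2]
        exact N.mul_mem (N.inv_mem hn₀) y.2.1⟩, by
        intro a ha
        change φ a ((g * n₀)⁻¹ * y.1) = (g * n₀)⁻¹ * y.1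
        rw [map_mul, map_inv, hfix' a ha, y.2.2 a ha]⟩
      invFun := fun c => ⟨g * n₀ * (c.1 : E), by
        have h2 : g⁻¹ * (g * n₀ * (c.1 : E)) = n₀ * c.1 := by group
        rw [h2]
        exact N.mul_mem hn₀ c.1.2, by
        intro a ha
        rw [map_mul, hfix' a ha, c.2 a ha]⟩
      left_inv := fun y => Subtype.ext (by
        change g * n₀ * ((g * n₀)⁻¹ * y.1) = y.1
        group)
      right_inv := fun c => Subtype.ext (Subtype.ext (by
        change (g * n₀)⁻¹ * (g * n₀ * (c.1 : E)) = c.1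
        group)) }
  have hY : ¬ p ∣ Nat.card Y := by
    intro h2
    rw [Nat.card_congr e] at h2
    exact hpN (h2.trans (Subgroup.card_subgroup_dvd_card C))
  have : Finite Y := Finite.of_equiv C e.symm
  have hact : ∀ (q : A) (y : Y), g⁻¹ * φ q y.1 ∈ N ∧ ∀ a ∈ A', φ a (φ q y.1) = φ q y.1 := by
    intro q y
    constructor
    · have h2 : g⁻¹ * φ q y.1 = g⁻¹ * φ q g * φ q (g⁻¹ * y.1) := by
        rw [map_mul, map_inv]
        group
      rw [h2]
      exact N.mul_mem (hg q) (hN q _ y.2.1)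
    · intro a ha
      have h2 : a * q = q * (q⁻¹ * a * q⁻¹⁻¹) := by group
      have h3 : φ a (φ q y.1) = φ q (φ (q⁻¹ * a * q⁻¹⁻¹) y.1) := by
        rw [← MulAut.mul_apply, ← MulAut.mul_apply, ← map_mul, ← map_mul, h2]
      rw [h3, y.2.2 _ (hnorm q⁻¹ a ha)]
  let _ : MulAction Q Y :=
    { smul := fun q y => ⟨φ (q : A) y.1, hact q y⟩
      one_smul := fun y => Subtype.ext (by
        change φ ((1 : Q) : A) y.1 = y.1
        rw [Subgroup.coe_one, map_one]
        rfl)
      mul_smul := fun q r y => Subtype.ext (by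
        change φ ((q * r : Q) : A) y.1 = φ (q : A) (φ (r : A) y.1)
        rw [Subgroup.coe_mul, map_mul]
        rfl) }
  obtain ⟨y, hy⟩ := Q.isPGroup'.nonempty_fixed_point_of_prime_not_dvd_card Y hY
  refine ⟨g⁻¹ * y.1, y.2.1, fun a => ?_⟩
  have h5 : g * (g⁻¹ * y.1) = y.1 := by group
  rw [h5]
  let St : Subgroup A :=
    { carrier := {a | φ a y.1 = y.1}
      mul_mem' := by
        intro a b ha hb
        change φ (a * b) y.1 = y.1
        rw [map_mul, MulAut.mul_apply, hb, ha]
      one_mem' := by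
        change φ 1 y.1 = y.1
        rw [map_one]
        rfl
      inv_mem' := by
        intro a ha
        change φ a⁻¹ y.1 = y.1
        have h6 : φ a⁻¹ (φ a y.1) = y.1 := by
          rw [← MulAut.mul_apply, ← map_mul, inv_mul_cancel, map_one]
          rfl
        rw [ha] at h6
        exact h6 }
  have h7 : A' ⊔ (Q : Subgroup A) ≤ St := by
    apply sup_le
    · intro a ha
      exact y.2.2 a ha
    · intro q hq
      exact congrArg Subtype.val (hy ⟨q, hq⟩)
  rw [hsup] at h7
  exact h7 (Subgroup.mem_top a)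

/-- a coset `g N` of a finite normalised subgroup which is invariant under a finite soluble group of
coprime order contains a fixed point -/
theorem cl_abs {A E : Type*} [Group A] [Finite A] [Group.IsSolvable A] [Group E]
    (φ : A →* MulAut E) (N : Subgroup E) [Finite N] (hN : ∀ a, ∀ n ∈ N, φ a n ∈ N)
    (hco : (Nat.card A).Coprime (Nat.card N)) (g : E) (hg : ∀ a, g⁻¹ * φ a g ∈ N) :
    ∃ n ∈ N, ∀ a, φ a (g * n) = g * n := by
  exact cla_aux N g _ A φ rfl hN hco hg

end MP0d06d9
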