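import Pool.Agent.Lib.MP_0d06d9_al.Defs
import Pool.Agent.Lib.MP_0d06d9_al.CLa

/-!
# JOB CLb: fixed points in invariant cosets (in a group), coprime orders, coprime commutators

PROOFS.
* `cl`: `cl_abs` for the homomorphism `A → MulAut G`, `a ↦ MulAut.conj a` (`MulAut.conj.comp A.subtype`). `hN` from `A ≤ normalizer N` (`mem_normalizer_iff`).
* `card_coprime`: a prime dividing both orders: Cauchy (`exists_prime_orderOf_dvd_card'`) gives elements of `A` and `N` of order `p`: `p ∈ π` and `p ∉ π` (`Nat.Coprime` by `Nat.coprime_of_dvd` or `Nat.Prime.not_coprime_iff_dvd`). `orderOf` of an element of the subgroup: `Subgroup.orderOf_coe`.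
* `isPi_mono`: clear.
* `comm_step`: `h ∈ H`, `x ∈ K₀`: there are `c`, `d` with `h = c * d`, `c ∈ H`, `x * c * x⁻¹ = c`, `d ∈ ⁅H, K₀⁆`. Let `A = zpowers x` (finite, soluble: it is commutative, `Group.isSolvable_of_comm`), `H1 = H ⊓ closure {h, x}` (finite by `LocFin`, normalised by `A` since `H` is normal and `x ∈ closure {h, x}`), `N = ⁅H1, A⁆`: `N ≤ H1` (`commutator_le`: `⁅g, a⁆ = g * (a * g⁻¹ * a⁻¹)`), so `N` is finite; `A ≤ normalizer N`
  (`normal_subgroupOf_commutator_sup`, or: `A` normalises `H1` and `A`). `h⁻¹ * (a * h * a⁻¹) = ⁅h⁻¹, a⁆ ∈ N`. The orders of `A` and `N` are coprime (`card_coprime`, `isPi_mono`: `A ≤ K`, `N ≤ H`). `cl` gives `n ∈ N` such that `c = h * n` commutes with `A`; `d = n⁻¹ ∈ N ≤ ⁅H, K₀⁆` (`commutator_mono`).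
* `comm_eq`: `≥`: `⁅H, K₀⁆ ≤ H` (normal), `commutator_mono`. `≤`: `commutator_le`: `h ∈ H`, `x ∈ K₁`: `h = c * d` from `comm_step`, `⁅h, x⁆ = c * ⁅d, x⁆ * c⁻¹` as `c` commutes with `x`, `= ⁅c * d * c⁻¹, c * x * c⁻¹⁆ = ⁅c * d * c⁻¹, x⁆`, and `c * d * c⁻¹ ∈ ⁅H, K₀⁆` as `H ≤ normalizer ⁅H, K₀⁆`
  (`normal_subgroupOf_commutator_sup`: `⁅H, K₀⁆` is normal in `H ⊔ K₀`).
-/

set_option autoImplicit false

namespace MP0d06d9

open Subgroup

variable {G : Type*} [Group G]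

theorem cl (A N : Subgroup G) (hA : Finite A) (hAs : Group.IsSolvable A) (hN : Finite N)
    (hAN : A ≤ normalizer (N : Set G)) (hco : (Nat.card A).Coprime (Nat.card N)) (g : G)
    (hg : ∀ a ∈ A, g⁻¹ * (a * g * a⁻¹) ∈ N) :
    ∃ n ∈ N, ∀ a ∈ A, a * (g * n) * a⁻¹ = g * n := by
  obtain ⟨n, hn, h⟩ := cl_abs (A := A) (E := G) (MulAut.conj.comp A.subtype) N
    (fun a n hn => by
      have h1 := (mem_normalizer_iff.1 (hAN a.2)) n
      exact h1.1 hn) hco g (fun a => hg a a.2)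
  exact ⟨n, hn, fun a ha => h ⟨a, ha⟩⟩

theorem isPi_mono {π : Set ℕ} {A B : Subgroup G} (h : A ≤ B) (hB : IsPi π B) : IsPi π A :=
  fun x hx => hB x (h hx)

theorem card_coprime {π : Set ℕ} {A N : Subgroup G} (hA : Finite A) (hN : Finite N)
    (hAπ : IsPi π A) (hNπ : IsPi πᶜ N) : (Nat.card A).Coprime (Nat.card N) := by
  by_contra hc
  obtain ⟨p, hp, h1, h2⟩ := Nat.Prime.not_coprime_iff_dvd.1 hc
  have : Fact p.Prime := ⟨hp⟩
  obtain ⟨a, ha⟩ := exists_prime_orderOf_dvd_card' (G := A) p h1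
  obtain ⟨b, hb⟩ := exists_prime_orderOf_dvd_card' (G := N) p h2
  have h3 : p ∈ π := hAπ a a.2 p hp (by rw [Subgroup.orderOf_coe, ha])
  have h4 : p ∈ πᶜ := hNπ b b.2 p hp (by rw [Subgroup.orderOf_coe, hb])
  exact h4 h3

theorem comm_step {π : Set ℕ} {H K K₀ : Subgroup G} (lf : LocFin G) (hn : H.Normal)
    (hH : IsPi πᶜ H) (hK : IsPi π K) (h0 : K₀ ≤ K) {h x : G} (hh : h ∈ H) (hx : x ∈ K₀) :
    ∃ c d, h = c * d ∧ c ∈ H ∧ x * c * x⁻¹ = c ∧ d ∈ ⁅H, K₀⁆ := by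
  classical
  have hfin : Finite (closure (({h, x} : Finset G) : Set G)) := lf {h, x}
  set L : Subgroup G := closure (({h, x} : Finset G) : Set G) with hL
  have hhL : h ∈ L := subset_closure (by simp)
  have hxL : x ∈ L := subset_closure (by simp)
  set A : Subgroup G := zpowers x with hA
  set H1 : Subgroup G := H ⊓ L with hH1
  have hAL : A ≤ L := zpowers_le.mpr hxL
  have hAK : A ≤ K₀ := zpowers_le.mpr hx
  have hN1 : ⁅H1, A⁆ ≤ H1 := by
    rw [commutator_le]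
    intro g hg a ha
    have e : g * a * g⁻¹ * a⁻¹ = g * (a * g⁻¹ * a⁻¹) := by group
    rw [commutatorElement_def, e]
    refine mem_inf.mpr ⟨?_, ?_⟩
    · exact H.mul_mem hg.1 (hn.conj_mem _ (H.inv_mem hg.1) a)
    · exact L.mul_mem hg.2 (L.mul_mem (L.mul_mem (hAL ha) (L.inv_mem hg.2)) (L.inv_mem (hAL ha)))
  have hfA : Finite A := Finite.of_injective _ (inclusion_injective hAL)
  have hfN : Finite (⁅H1, A⁆ : Subgroup G) :=
    Finite.of_injective _ (inclusion_injective (hN1.trans inf_le_right))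
  have hsol : Group.IsSolvable A := by
    apply Group.isSolvable_of_comm
    rintro ⟨a, ha⟩ ⟨b, hb⟩
    obtain ⟨i, rfl⟩ := mem_zpowers_iff.mp ha
    obtain ⟨j, rfl⟩ := mem_zpowers_iff.mp hb
    apply Subtype.ext
    change x ^ i * x ^ j = x ^ j * x ^ i
    rw [← zpow_add, ← zpow_add, add_comm]
  have hco : (Nat.card A).Coprime (Nat.card (⁅H1, A⁆ : Subgroup G)) :=
    card_coprime hfA hfN (isPi_mono (hAK.trans h0) hK) (isPi_mono (hN1.trans inf_le_left) hH)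
  have hh1 : h ∈ H1 := mem_inf.mpr ⟨hh, hhL⟩
  obtain ⟨n, hnN, hfix⟩ := cl A ⁅H1, A⁆ hfA hsol hfN (normalizer_commutator_ge_right _ _) hco h (by
    intro a ha
    have e : h⁻¹ * (a * h * a⁻¹) = h⁻¹ * a * h⁻¹⁻¹ * a⁻¹ := by group
    have e2 := commutator_mem_commutator (H1.inv_mem hh1) ha
    rw [commutatorElement_def] at e2
    rw [e]
    exact e2)
  refine ⟨h * n, n⁻¹, ?_, ?_, hfix x (mem_zpowers x), ?_⟩
  · rw [mul_inv_cancel_right]
  · exact H.mul_mem hh (hN1 hnN).1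
  · exact Subgroup.inv_mem _ (commutator_mono inf_le_left hAK hnN)

theorem comm_eq {π : Set ℕ} {H K K₀ K₁ : Subgroup G} (lf : LocFin G) (hn : H.Normal)
    (hH : IsPi πᶜ H) (hK : IsPi π K) (h0 : K₀ ≤ K) (h1 : K₁ ≤ K₀) :
    ⁅⁅H, K₀⁆, K₁⁆ = ⁅H, K₁⁆ := by
  refine le_antisymm (commutator_mono (commutator_le_left _ _) le_rfl) ?_
  rw [commutator_le]
  intro h hh x hx
  obtain ⟨c, e, he, hc, hxc, hd⟩ := comm_step lf hn hH hK h0 hh (h1 hx)
  have h2 : c⁻¹ * x * c = x := by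
    calc c⁻¹ * x * c = (x * c * x⁻¹)⁻¹ * x * c := by rw [hxc]
      _ = x := by group
  have h3 : h * x * h⁻¹ * x⁻¹ = c * e * c⁻¹ * x * (c * e * c⁻¹)⁻¹ * x⁻¹ := by
    rw [he]
    calc c * e * x * (c * e)⁻¹ * x⁻¹ = c * e * (c⁻¹ * x * c) * (c * e)⁻¹ * x⁻¹ := by rw [h2]
      _ = c * e * c⁻¹ * x * (c * e * c⁻¹)⁻¹ * x⁻¹ := by group
  have h4 : c ∈ normalizer ((⁅H, K₀⁆ : Subgroup G) : Set G) := normalizer_commutator_ge_left _ _ hc
  have h5 := commutator_mem_commutator ((mem_normalizer_iff.mp h4 e).mp hd) hx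
  rw [commutatorElement_def] at h5
  rw [commutatorElement_def, h3]
  exact h5

end MP0d06d9
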