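import Pool.Agent.Lib.MP_0d06d9_al.Defs

/-!
# JOB CRT: Chinese remainder theorem for perfect groups

`E` is perfect, the `M` are maximal normal subgroups of `E` (as subgroups of the ambient group).
PROOFS.
* `maxN_comm`: `A, B ≤ E` normalised by `E` with `E ≤ A ⊔ M` and `E ≤ B ⊔ M`: then `E ≤ (A ⊓ B) ⊔ M`. `N = (A ⊓ B) ⊔ M` is contained in `E` and normalised by `E`
  (`Subgroup.sup_normalizer`-type, or elementwise: an element of `N` is `c * m`, `c ∈ A ⊓ B`, `m ∈ M`: `mem_sup_of_normal_right`-type; you may pass to subgroups of the group `↥E`, where everything is normal), so by `hM.max` it is `M` or `E`. If it is `M` then `A ⊓ B ≤ M`; every `e ∈ E` is `a * m` and every `e' ∈ E` is `b * m'`;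
  `⁅a, b⁆ ∈ A ⊓ B ≤ M` (`⁅a, b⁆ = a * (b * a⁻¹ * b⁻¹) ∈ A`, `= (a * b * a⁻¹) * b⁻¹ ∈ B`), so `⁅e, e'⁆ ∈ M`: in the quotient `↥E ⧸ M.subgroupOf E` the images of `e`, `a` and of `e'`, `b` agree. Hence `E = ⁅E, E⁆ ≤ M`, contradiction to `hM.ne`.
* `sup_maxN`: `M ≠ M'` both maximal: `E ≤ M' ⊔ M`: `M' ⊔ M` is normalised by `E`, between `M` and `E`: `M' ⊔ M = M` or `E`; in the first case `M' ≤ M`, so `M = M'` or `M = E` by `hM'.max`.
* `inf_sup`: induction on the finset `T`: `T = ∅`: `E ⊓ ⊤`. `insert M' T`: `(E ⊓ T.inf id) ⊓ M'` (`maxN_comm` with `A = E ⊓ T.inf id`, `B = M'`).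
  (`E ≤ normalizer (E ⊓ T.inf id)`: elementwise with `Finset.inf_le`/`Subgroup` membership: prove first `y ∈ T.inf id ↔ ∀ M ∈ T, y ∈ M` (induction).)
* `crt`: induction on `T`. `insert M T`: `x` for `T`; `x⁻¹ * c M ∈ E ≤ (E ⊓ T.inf id) ⊔ M`, so it is `n * m` (`n ∈ E ⊓ T.inf id`, `m ∈ M`); take `x * n`: `(c M')⁻¹ * (x * n) ∈ M'` for `M' ∈ T`, and `(c M)⁻¹ * (x * n) = m⁻¹`.
-/

set_option autoImplicit false

namespace MP0d06d9

open Subgroup

variable {G : Type*} [Group G]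

private theorem crt1_conj {N : Subgroup G} {g x : G} (hg : g ∈ normalizer (N : Set G))
    (hx : x ∈ N) : g * x * g⁻¹ ∈ N := (mem_normalizer_iff.1 hg x).1 hx

private theorem crt1_sup {E A M : Subgroup G} (hA : A ≤ E) (hM : E ≤ normalizer (M : Set G))
    {e : G} (he : e ∈ A ⊔ M) : ∃ a ∈ A, ∃ m ∈ M, e = a * m := by
  rw [sup_eq_closure] at he
  induction he using closure_induction with
  | mem x hx =>
    rcases hx with hx | hx
    · exact ⟨x, hx, 1, one_mem _, (mul_one x).symm⟩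
    · exact ⟨1, one_mem _, x, hx, (one_mul x).symm⟩
  | one => exact ⟨1, one_mem _, 1, one_mem _, (one_mul 1).symm⟩
  | mul x y _ _ hx hy =>
    obtain ⟨a, ha, m, hm, rfl⟩ := hx
    obtain ⟨b, hb, l, hl, rfl⟩ := hy
    refine ⟨a * b, mul_mem ha hb, (b⁻¹ * m * b⁻¹⁻¹) * l, mul_mem ?_ hl, by group⟩
    exact crt1_conj (hM (E.inv_mem (hA hb))) hm
  | inv x _ hx =>
    obtain ⟨a, ha, m, hm, rfl⟩ := hx
    refine ⟨a⁻¹, A.inv_mem ha, a * m⁻¹ * a⁻¹, ?_, by group⟩
    exact crt1_conj (hM (hA ha)) (M.inv_mem hm)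

private theorem crt1_norm {E A B : Subgroup G} (hA : E ≤ normalizer (A : Set G))
    (hB : E ≤ normalizer (B : Set G)) : E ≤ normalizer ((A ⊔ B : Subgroup G) : Set G) := by
  intro x hx
  rw [← cj_eq_iff]
  have h1 : cj x A = A := cj_eq_iff.2 (hA hx)
  have h2 : cj x B = B := cj_eq_iff.2 (hB hx)
  calc cj x (A ⊔ B) = cj x A ⊔ cj x B := Subgroup.map_sup _ _ _
    _ = A ⊔ B := by rw [h1, h2]

private theorem crt1_norm_inf {E A B : Subgroup G} (hA : E ≤ normalizer (A : Set G))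
    (hB : E ≤ normalizer (B : Set G)) : E ≤ normalizer ((A ⊓ B : Subgroup G) : Set G) := by
  intro x hx
  rw [mem_normalizer_iff]
  intro y
  have h1 := mem_normalizer_iff.1 (hA hx) y
  have h2 := mem_normalizer_iff.1 (hB hx) y
  exact ⟨fun h => ⟨h1.1 h.1, h2.1 h.2⟩, fun h => ⟨h1.2 h.1, h2.2 h.2⟩⟩

theorem maxN_comm {E M A B : Subgroup G} (hE : ⁅E, E⁆ = E) (hM : MaxN E M) (hA : A ≤ E)
    (hB : B ≤ E) (hA' : E ≤ normalizer (A : Set G)) (hB' : E ≤ normalizer (B : Set G))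
    (h1 : E ≤ A ⊔ M) (h2 : E ≤ B ⊔ M) : E ≤ (A ⊓ B) ⊔ M := by
  rcases hM.max ((A ⊓ B) ⊔ M) le_sup_right (sup_le (inf_le_left.trans hA) hM.le)
    (crt1_norm (crt1_norm_inf hA' hB') hM.nor) with h | h
  · exfalso
    have hAB : A ⊓ B ≤ M := le_sup_left.trans h.le
    have hEM : E ≤ M := by
      rw [← hE, commutator_le]
      intro e he e' he'
      obtain ⟨a, ha, m, hm, rfl⟩ := crt1_sup hA hM.nor (h1 he)
      obtain ⟨b, hb, l, hl, rfl⟩ := crt1_sup hB hM.nor (h2 he')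
      have hab : a * b * a⁻¹ * b⁻¹ ∈ M := by
        apply hAB
        refine ⟨?_, ?_⟩
        · have h3 : b * a⁻¹ * b⁻¹ ∈ A := crt1_conj (hA' (hB hb)) (A.inv_mem ha)
          have h4 : a * b * a⁻¹ * b⁻¹ = a * (b * a⁻¹ * b⁻¹) := by group
          rw [h4]
          exact mul_mem ha h3
        · have h3 : a * b * a⁻¹ ∈ B := crt1_conj (hB' (hA ha)) hb
          exact B.mul_mem h3 (B.inv_mem hb)
      have h5 : a * m * a⁻¹ ∈ M := crt1_conj (hM.nor (hA ha)) hm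
      have h6 : (b * a) * (l * m⁻¹) * (b * a)⁻¹ ∈ M :=
        crt1_conj (hM.nor (mul_mem (hB hb) (hA ha))) (M.mul_mem hl (M.inv_mem hm))
      have h7 : b * l⁻¹ * b⁻¹ ∈ M := crt1_conj (hM.nor (hB hb)) (M.inv_mem hl)
      have h8 : (a * m) * (b * l) * (a * m)⁻¹ * (b * l)⁻¹ = (a * m * a⁻¹) * (a * b * a⁻¹ * b⁻¹) *
          ((b * a) * (l * m⁻¹) * (b * a)⁻¹) * (b * l⁻¹ * b⁻¹) := by
        group
      show (a * m) * (b * l) * (a * m)⁻¹ * (b * l)⁻¹ ∈ M
      rw [h8]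
      exact mul_mem (mul_mem (mul_mem h5 hab) h6) h7
    exact hM.ne (le_antisymm hM.le hEM)
  · exact h.ge

theorem sup_maxN {E M M' : Subgroup G} (hM : MaxN E M) (hM' : MaxN E M') (h : M' ≠ M) :
    E ≤ M' ⊔ M := by
  rcases hM.max (M' ⊔ M) le_sup_right (sup_le hM'.le hM.le) (crt1_norm hM'.nor hM.nor) with h1 | h1
  · exfalso
    have h2 : M' ≤ M := le_sup_left.trans h1.le
    rcases hM'.max M h2 hM.le hM.nor with h3 | h3
    · exact h h3.symm
    · exact hM.ne h3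
  · exact h1.ge

private theorem crt2_inf (T : Finset (Subgroup G)) (y : G) :
    y ∈ T.inf id ↔ ∀ M ∈ T, y ∈ M := by
  classical
  induction T using Finset.induction_on with
  | empty => simp
  | insert M T hM ih =>
    rw [Finset.inf_insert, id_eq, mem_inf, ih]
    simp only [Finset.mem_insert, forall_eq_or_imp]

private theorem crt2_nor {E : Subgroup G} (T : Finset (Subgroup G)) (hT : ∀ M ∈ T, MaxN E M) :
    E ≤ normalizer ((E ⊓ T.inf id : Subgroup G) : Set G) := by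
  intro g hg
  rw [mem_normalizer_iff]
  intro y
  rw [mem_inf, mem_inf, crt2_inf, crt2_inf]
  have h1 : y ∈ E ↔ g * y * g⁻¹ ∈ E := by
    constructor
    · intro h
      exact E.mul_mem (E.mul_mem hg h) (E.inv_mem hg)
    · intro h
      have e : y = g⁻¹ * (g * y * g⁻¹) * g := by group
      rw [e]
      exact E.mul_mem (E.mul_mem (E.inv_mem hg) h) hg
  have h2 : ∀ M ∈ T, (y ∈ M ↔ g * y * g⁻¹ ∈ M) := fun M hM =>
    mem_normalizer_iff.mp ((hT M hM).nor hg) y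
  rw [h1]
  exact and_congr_right fun _ => forall₂_congr h2

theorem inf_sup {E M : Subgroup G} (hE : ⁅E, E⁆ = E) (hM : MaxN E M) (T : Finset (Subgroup G))
    (hT : ∀ M' ∈ T, MaxN E M' ∧ M' ≠ M) : E ≤ (E ⊓ T.inf id) ⊔ M := by
  classical
  induction T using Finset.induction_on with
  | empty =>
    rw [Finset.inf_empty, inf_top_eq]
    exact le_sup_left
  | insert M' T hM' ih =>
    have h1 := ih (fun N hN => hT N (Finset.mem_insert_of_mem hN))
    obtain ⟨h2, h3⟩ := hT M' (Finset.mem_insert_self _ _)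
    have h4 := maxN_comm hE hM (A := E ⊓ T.inf id) (B := M') inf_le_left h2.le
      (crt2_nor T fun N hN => (hT N (Finset.mem_insert_of_mem hN)).1) h2.nor h1
      (sup_maxN hM h2 h3)
    rw [Finset.inf_insert, id_eq, inf_comm M', ← inf_assoc]
    exact h4

private theorem crt2_mul {N M : Subgroup G} (h : N ≤ normalizer (M : Set G)) {z : G}
    (hz : z ∈ N ⊔ M) : ∃ n ∈ N, ∃ m ∈ M, z = n * m := by
  have hc : ∀ n ∈ N, ∀ m ∈ M, n⁻¹ * m * n ∈ M := by
    intro n hn m hm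
    have h1 := (mem_normalizer_iff.mp (h (N.inv_mem hn)) m).mp hm
    rwa [inv_inv] at h1
  let P : Subgroup G :=
    { carrier := {z | ∃ n ∈ N, ∃ m ∈ M, z = n * m}
      one_mem' := ⟨1, N.one_mem, 1, M.one_mem, (mul_one 1).symm⟩
      mul_mem' := by
        rintro _ _ ⟨n, hn, m, hm, rfl⟩ ⟨n', hn', m', hm', rfl⟩
        refine ⟨n * n', N.mul_mem hn hn', n'⁻¹ * m * n' * m', M.mul_mem (hc n' hn' m hm) hm', ?_⟩
        group
      inv_mem' := by
        rintro _ ⟨n, hn, m, hm, rfl⟩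
        refine ⟨n⁻¹, N.inv_mem hn, n * m⁻¹ * n⁻¹, ?_, ?_⟩
        · have h1 := hc n⁻¹ (N.inv_mem hn) m⁻¹ (M.inv_mem hm)
          rwa [inv_inv] at h1
        · group }
  have hNM : N ⊔ M ≤ P := by
    refine sup_le ?_ ?_
    · intro n hn
      exact ⟨n, hn, 1, M.one_mem, (mul_one n).symm⟩
    · intro m hm
      exact ⟨1, N.one_mem, m, hm, (one_mul m).symm⟩
  exact hNM hz

theorem crt {E : Subgroup G} (hE : ⁅E, E⁆ = E) (T : Finset (Subgroup G))
    (hT : ∀ M ∈ T, MaxN E M) (c : Subgroup G → G) (hc : ∀ M ∈ T, c M ∈ E) :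
    ∃ x ∈ E, ∀ M ∈ T, (c M)⁻¹ * x ∈ M := by
  classical
  induction T using Finset.induction_on with
  | empty => exact ⟨1, E.one_mem, fun M hM => absurd hM (Finset.notMem_empty M)⟩
  | insert M T hMT ih =>
    obtain ⟨x, hx, hx'⟩ := ih (fun N hN => hT N (Finset.mem_insert_of_mem hN))
      (fun N hN => hc N (Finset.mem_insert_of_mem hN))
    have hM := hT M (Finset.mem_insert_self _ _)
    have h1 : x⁻¹ * c M ∈ (E ⊓ T.inf id) ⊔ M :=
      inf_sup hE hM T (fun N hN => ⟨hT N (Finset.mem_insert_of_mem hN), fun h => hMT (h ▸ hN)⟩)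
        (E.mul_mem (E.inv_mem hx) (hc M (Finset.mem_insert_self _ _)))
    obtain ⟨n, hn, m, hm, he⟩ := crt2_mul (inf_le_left.trans hM.nor) h1
    obtain ⟨hnE, hnT⟩ := mem_inf.mp hn
    rw [crt2_inf] at hnT
    refine ⟨x * n, E.mul_mem hx hnE, fun N hN => ?_⟩
    rcases Finset.mem_insert.mp hN with rfl | hN
    · have h2 : (c N)⁻¹ * (x * n) = m⁻¹ := by
        have h3 : n = x⁻¹ * c N * m⁻¹ := by rw [he, mul_inv_cancel_right]
        rw [h3]
        group
      rw [h2]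
      exact N.inv_mem hm
    · rw [← mul_assoc]
      exact N.mul_mem (hx' N hN) (hnT N hN)

end MP0d06d9
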