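import Mathlib

/-!
# MP_0d06d9_al: definitions

`H` is a normal `π'`-subgroup, `K` a `π`-subgroup of the locally finite group `G`.
-/

set_option autoImplicit false

namespace MP0d06d9

open Subgroup

/-- `G` is locally finite: every finitely generated subgroup is finite -/
def LocFin (G : Type*) [Group G] : Prop :=
  ∀ S : Finset G, Finite (closure (S : Set G))

section

variable {G : Type*} [Group G]

/-- the orders of the elements of `H` are divisible only by primes in `π` -/
def IsPi (π : Set ℕ) (H : Subgroup G) : Prop :=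
  ∀ x ∈ H, ∀ p : ℕ, p.Prime → p ∣ orderOf x → p ∈ π

/-- `H` is locally soluble: every finitely generated subgroup of `H` is soluble -/
def LocSol (H : Subgroup G) : Prop :=
  ∀ S : Finset G, (S : Set G) ⊆ H → Group.IsSolvable (closure (S : Set G))

/-- `G = H K` is `S_π`-sparse: for every `L ≤ K` there is a finite `F ≤ L` with the same
centralizer in `H` -/
def Sparse (H K : Subgroup G) : Prop :=
  ∀ L : Subgroup G, L ≤ K → ∃ F : Subgroup G, F ≤ L ∧ Finite F ∧
    H ⊓ centralizer (L : Set G) = H ⊓ centralizer (F : Set G)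

/-- The finite soluble `π`-groups of automorphisms of `S` satisfy the Galois correspondence: each
such group `A` fixes an element `s ≠ 1`, and no proper subgroup of `A` has the same fixed points. -/
def GaloisType (π : Set ℕ) (S : Type*) [Group S] : Prop :=
  ∀ A : Subgroup (MulAut S), Finite A → Group.IsSolvable A → IsPi π A →
    (∃ s : S, s ≠ 1 ∧ ∀ a ∈ A, a s = s) ∧
    ∀ B : Subgroup (MulAut S), B ≤ A →
      (∀ s : S, (∀ b ∈ B, b s = s) → ∀ a ∈ A, a s = s) → B = A

/-- the nonabelian simple sections of the finite subgroups of `H` are of Galois type -/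
def SecGalois (π : Set ℕ) (H : Subgroup G) : Prop :=
  ∀ E : Subgroup G, E ≤ H → Finite E → ∀ (M : Subgroup E) [M.Normal], IsSimpleGroup (E ⧸ M) →
    (∃ a b : E ⧸ M, a * b ≠ b * a) → GaloisType π (E ⧸ M)

/-! ## Auxiliary notions -/

/-- `M` is a maximal normal subgroup of `E` -/
structure MaxN (E M : Subgroup G) : Prop where
  le : M ≤ E
  ne : M ≠ E
  nor : E ≤ normalizer (M : Set G)
  max : ∀ N : Subgroup G, M ≤ N → N ≤ E → E ≤ normalizer (N : Set G) → N = M ∨ N = E

/-- `x` acts trivially on `E / M` -/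
def Tr (E M : Subgroup G) (x : G) : Prop := ∀ e ∈ E, e⁻¹ * (x * e * x⁻¹) ∈ M

/-- the conjugate `x M x⁻¹` -/
def cj (x : G) (M : Subgroup G) : Subgroup G := M.map (MulAut.conj x).toMonoidHom

theorem mem_cj {x y : G} {M : Subgroup G} : y ∈ cj x M ↔ x⁻¹ * y * x ∈ M := by
  unfold cj
  rw [Subgroup.mem_map]
  constructor
  · rintro ⟨z, hz, rfl⟩
    have e : x⁻¹ * ((MulAut.conj x).toMonoidHom z) * x = z := by
      show x⁻¹ * (x * z * x⁻¹) * x = z
      group
    rwa [e]
  · intro h
    refine ⟨_, h, ?_⟩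
    show x * (x⁻¹ * y * x) * x⁻¹ = y
    group

theorem cj_mul (x y : G) (M : Subgroup G) : cj (x * y) M = cj x (cj y M) := by
  ext z
  rw [mem_cj, mem_cj, mem_cj]
  have e : (x * y)⁻¹ * z * (x * y) = y⁻¹ * (x⁻¹ * z * x) * y := by group
  rw [e]

theorem cj_one (M : Subgroup G) : cj 1 M = M := by
  ext z
  rw [mem_cj]
  simp

theorem cj_eq_iff {x : G} {M : Subgroup G} : cj x M = M ↔ x ∈ normalizer (M : Set G) := by
  rw [mem_normalizer_iff'']
  constructor
  · intro h z
    rw [← mem_cj, h]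
  · intro h
    ext z
    rw [mem_cj, ← h]

/-- the properties of the coprime action on a simple section `E / M` of Galois type -/
structure GT (π : Set ℕ) (E M : Subgroup G) : Prop where
  g1 : ∀ B : Subgroup G, Finite B → Group.IsSolvable B → IsPi π B →
    B ≤ normalizer (E : Set G) → B ≤ normalizer (M : Set G) →
    ∃ s ∈ E, s ∉ M ∧ ∀ b ∈ B, s⁻¹ * (b * s * b⁻¹) ∈ M
  g2 : ∀ B C : Subgroup G, B ≤ C → Finite C → Group.IsSolvable C → IsPi π C →
    C ≤ normalizer (E : Set G) → C ≤ normalizer (M : Set G) →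
    (∀ s ∈ E, (∀ b ∈ B, s⁻¹ * (b * s * b⁻¹) ∈ M) → ∀ c ∈ C, s⁻¹ * (c * s * c⁻¹) ∈ M) →
    ∀ c ∈ C, ∃ b ∈ B, Tr E M (b⁻¹ * c)

/-- `(E, M)` is a valid pair for `X` -/
structure Val (H X E M : Subgroup G) : Prop where
  le : E ≤ H
  fin : Finite E
  perf : ⁅E, E⁆ = E
  nor : X ≤ normalizer (E : Set G)
  max : MaxN E M

/-- the kernels of the actions of `X` on the simple sections -/
def Ker (H X U : Subgroup G) : Prop :=
  U = X ∨ ∃ E M : Subgroup G, Val H X E M ∧ ∀ x, x ∈ U ↔ x ∈ X ∧ Tr E M x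

/-- the situation of the theorem -/
structure Ctx (π : Set ℕ) (H K : Subgroup G) : Prop where
  lf : LocFin G
  nor : H.Normal
  piH : IsPi πᶜ H
  piK : IsPi π K
  solK : LocSol K
  sp : Sparse H K
  sec : SecGalois π H

end

end MP0d06d9
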