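import Pool.Agent.Lib.MP_0d06d9_al.GTa

/-!
# JOB GTb: from groups of automorphisms of the quotient to conjugation

PROOFS. `M' = M.subgroupOf E`.
* `exists_hom`: `C` normalises `E` and `M`. For `c : C` the conjugation by `c` is an automorphism of `E` which maps `M'` onto itself: `Subgroup.normalizerMonoidHom E` composed with the inclusion, and `QuotientGroup.congr` (or `QuotientGroup.map` for `c` and `c⁻¹`); multiplicativity by `QuotientGroup.induction_on`.
* `gt_of_galois`. Let `ψ : C →* MulAut (E ⧸ M')`; `ψ.range` is finite, soluble (`Group.isSolvable_of_surjective` for `ψ.rangeRestrict`), and `IsPi π` (`orderOf (ψ c) ∣ orderOf c`: `orderOf_map_dvd`, `Subgroup.orderOf_coe`).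
  `g1`: `C = B`: the element `s ≠ 1` of `E ⧸ M'` fixed by `ψ.range` is the class of some `s ∈ E`, `s ∉ M`; `ψ b (mk s) = mk s` means `s⁻¹ * (b * s * b⁻¹) ∈ M` (`QuotientGroup.eq`, `mem_subgroupOf`).
  `g2`: `A = ψ.range`, `B' = (B.subgroupOf C).map ψ ≤ A`. If `s` is fixed by `B'` then (for a representative) it is fixed by `A` by the hypothesis, so `B' = A`. For `c ∈ C`: `ψ c ∈ B'`: `ψ c = ψ b`, `b ∈ B`, `ψ (b⁻¹ * c) = 1`: `Tr E M (b⁻¹ * c)`.
* `gt_of_sec`: `SecGalois` for `E`, `M'`: `maxN_normal`, `maxN_simple`, `maxN_nonab`.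
-/

set_option autoImplicit false

namespace MP0d06d9

open Subgroup

variable {G : Type*} [Group G]

theorem exists_hom {E M C : Subgroup G} [hn : (M.subgroupOf E).Normal]
    (hE : C ≤ normalizer (E : Set G)) (hM : C ≤ normalizer (M : Set G)) (hME : M ≤ E) :
    ∃ ψ : C →* MulAut (↥E ⧸ M.subgroupOf E), ∀ (c : C) (e e' : E),
      ((e' : G) = c * e * (c : G)⁻¹) →
        ψ c (QuotientGroup.mk e) = (QuotientGroup.mk e' : ↥E ⧸ M.subgroupOf E) := by
  let φ : C →* MulAut E := E.normalizerMonoidHom.comp (Subgroup.inclusion hE)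
  have hφ : ∀ (c : C) (e : E), ((φ c e : E) : G) = c * e * (c : G)⁻¹ := fun c e => rfl
  have hsub : ∀ (c : C) (e : E), e ∈ M.subgroupOf E → φ c e ∈ M.subgroupOf E := by
    intro c e he
    rw [mem_subgroupOf] at he ⊢
    rw [hφ]
    exact (mem_normalizer_iff.mp (hM c.2) e).mp he
  have hmap : ∀ c : C, (M.subgroupOf E).map ((φ c : ↥E ≃* ↥E) : ↥E →* ↥E) = M.subgroupOf E := by
    intro c
    apply le_antisymm
    · rw [Subgroup.map_le_iff_le_comap]
      intro e he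
      rw [Subgroup.mem_comap]
      exact hsub c e he
    · intro e he
      refine ⟨φ c⁻¹ e, hsub c⁻¹ e he, ?_⟩
      show φ c (φ c⁻¹ e) = e
      rw [← MulAut.mul_apply, ← map_mul, mul_inv_cancel, map_one, MulAut.one_apply]
  refine ⟨MonoidHom.mk' (fun c => QuotientGroup.congr (M.subgroupOf E) (M.subgroupOf E) (φ c)
    (hmap c)) ?_, ?_⟩
  · intro c d
    apply MulEquiv.ext
    intro x
    induction x using QuotientGroup.induction_on with
    | H e =>
      show (QuotientGroup.mk (φ (c * d) e) : ↥E ⧸ M.subgroupOf E) =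
        QuotientGroup.mk (φ c (φ d e))
      rw [map_mul, MulAut.mul_apply]
  · intro c e e' he'
    have h1 : φ c e = e' := Subtype.ext (by rw [hφ, he'])
    show (QuotientGroup.mk (φ c e) : ↥E ⧸ M.subgroupOf E) = QuotientGroup.mk e'
    rw [h1]

/-- the automorphism group defined by `C` -/
private theorem gtb2_hom {π : Set ℕ} {E M C : Subgroup G} (hM : MaxN E M)
    [hn : (M.subgroupOf E).Normal] (hf : Finite C) (hs : Group.IsSolvable C) (hp : IsPi π C)
    (hE : C ≤ normalizer (E : Set G)) (hCM : C ≤ normalizer (M : Set G)) :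
    ∃ ψ : C →* MulAut (↥E ⧸ M.subgroupOf E), Finite ψ.range ∧ Group.IsSolvable ψ.range ∧
      IsPi π ψ.range ∧ ∀ (c : C) (e : E), ψ c (QuotientGroup.mk e) =
        (QuotientGroup.mk e : ↥E ⧸ M.subgroupOf E) ↔ (e : G)⁻¹ * (c * e * (c : G)⁻¹) ∈ M := by
  obtain ⟨ψ, hψ⟩ := exists_hom hE hCM hM.le
  refine ⟨ψ, Finite.of_surjective _ ψ.rangeRestrict_surjective,
    Group.isSolvable_of_surjective ψ.rangeRestrict_surjective, ?_, fun c e => ?_⟩
  · rintro x ⟨c, rfl⟩ p hpp hd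
    refine hp c c.2 p hpp ?_
    rw [Subgroup.orderOf_coe]
    exact hd.trans (orderOf_map_dvd ψ c)
  · have hmem : (c : G) * e * (c : G)⁻¹ ∈ E := (mem_normalizer_iff.1 (hE c.2) (e : G)).1 e.2
    rw [hψ c e ⟨_, hmem⟩ rfl, eq_comm, QuotientGroup.eq, mem_subgroupOf]
    exact Iff.rfl

theorem gt_of_galois {π : Set ℕ} {E M : Subgroup G} (hM : MaxN E M)
    [hn : (M.subgroupOf E).Normal] (h : GaloisType π (↥E ⧸ M.subgroupOf E)) : GT π E M := by
  constructor
  · intro B hf hs hp hE hBM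
    obtain ⟨ψ, h1, h2, h3, h4⟩ := gtb2_hom hM hf hs hp hE hBM
    obtain ⟨⟨t, ht1, ht2⟩, -⟩ := h ψ.range h1 h2 h3
    obtain ⟨s, rfl⟩ := QuotientGroup.mk_surjective t
    refine ⟨s, s.2, fun hsM => ht1 ?_, fun b hb => ?_⟩
    · rw [QuotientGroup.eq_one_iff, mem_subgroupOf]
      exact hsM
    · exact (h4 ⟨b, hb⟩ s).1 (ht2 _ ⟨⟨b, hb⟩, rfl⟩)
  · intro B C hBC hf hs hp hE hCM hfix c hc
    obtain ⟨ψ, h1, h2, h3, h4⟩ := gtb2_hom hM hf hs hp hE hCM
    have h5 := (h ψ.range h1 h2 h3).2 ((B.subgroupOf C).map ψ) (by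
      rintro x ⟨b, -, rfl⟩
      exact ⟨b, rfl⟩) (by
      intro t ht
      obtain ⟨s, rfl⟩ := QuotientGroup.mk_surjective t
      have h6 := hfix s s.2 (fun b hb =>
        (h4 ⟨b, hBC hb⟩ s).1 (ht _ ⟨⟨b, hBC hb⟩, hb, rfl⟩))
      rintro a ⟨c', rfl⟩
      exact (h4 c' s).2 (h6 c' c'.2))
    have h7 : ψ ⟨c, hc⟩ ∈ (B.subgroupOf C).map ψ := by
      rw [h5]
      exact ⟨_, rfl⟩
    obtain ⟨b, hb, hbc⟩ := h7
    refine ⟨b, hb, fun e he => ?_⟩
    have h8 : ψ (b⁻¹ * ⟨c, hc⟩) = 1 := by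
      rw [map_mul, map_inv, hbc, inv_mul_cancel]
    have h9 := (h4 (b⁻¹ * ⟨c, hc⟩) ⟨e, he⟩).1 (by rw [h8]; rfl)
    exact h9

theorem gt_of_sec {π : Set ℕ} {H E M : Subgroup G} (hsec : SecGalois π H) (hEH : E ≤ H)
    (hEf : Finite E) (hE : ⁅E, E⁆ = E) (hM : MaxN E M) : GT π E M := by
  have hn : (M.subgroupOf E).Normal := maxN_normal hM
  exact gt_of_galois hM (hsec E hEH hEf (M.subgroupOf E) (maxN_simple hM) (maxN_nonab hE hM))

end MP0d06d9
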