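import Pool.Agent.Lib.MP_0d06d9_al.Lift
import Pool.Agent.Lib.MP_0d06d9_al.GTb

/-!
# JOB FL: the finite lemma

PROOF. `B = F ⊓ normalizer M`, `C = L ⊓ normalizer M` (finite, soluble as subgroups of the soluble group `L`: `Group.isSolvable_of_isSolvable_injective` for the inclusion; `IsPi` by `isPi_mono`).
(a) for `a ∈ L` there is `f ∈ F` with `cj a M = cj f M`: otherwise let `s` be from `hgt.g1` for `B`; `lift` gives `e` fixed by `L` with `s⁻¹ * e ∈ M` and `e ∈ cj a M`, i.e. `a⁻¹ * e * a ∈ M`; `a⁻¹ e a = e` (fixed by `a⁻¹ ∈ L`), so `e ∈ M` and `s ∈ M`: contradiction.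
(b) `hgt.g2` for `B ≤ C`: the hypothesis: `s ∈ E` fixed modulo `M` by `B`: `lift` gives `e ≡ s (mod M)` fixed by `L`; for `c ∈ C`: `c s c⁻¹ ≡ c e c⁻¹ = e ≡ s (mod M)` (`c` normalises `M`).
Now let `x ∈ L`, `f ∈ F` with `cj x M = cj f M` (a). `f⁻¹ * x ∈ C` (`cj_eq_iff`, `cj_mul`), so by (b) there is `b ∈ B` with `Tr E M (b⁻¹ * (f⁻¹ * x))`; take `f * b`.
-/

set_option autoImplicit false

namespace MP0d06d9

open Subgroup

variable {G : Type*} [Group G]

theorem fl {π : Set ℕ} {L F E M : Subgroup G} (hE : ⁅E, E⁆ = E) (hEf : Finite E)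
    (hLf : Finite L) (hLs : Group.IsSolvable L) (hLπ : IsPi π L) (hEπ : IsPi πᶜ E)
    (hM : MaxN E M) (hLE : L ≤ normalizer (E : Set G)) (hF : F ≤ L)
    (hC : ∀ e ∈ E, (∀ f ∈ F, f * e * f⁻¹ = e) → ∀ a ∈ L, a * e * a⁻¹ = e)
    (hgt : GT π E M) : ∀ x ∈ L, ∃ f ∈ F, Tr E M (f⁻¹ * x) := by
  have hFf : Finite F := Finite.of_injective (inclusion hF) (inclusion_injective hF)
  have hFs : Group.IsSolvable F := Group.isSolvable_of_isSolvable_injective (inclusion_injective hF)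
  have hco : (Nat.card F).Coprime (Nat.card E) := card_coprime hFf hEf (isPi_mono hF hLπ) hEπ
  have hBF : F ⊓ normalizer (M : Set G) ≤ F := inf_le_left
  have hCL : L ⊓ normalizer (M : Set G) ≤ L := inf_le_left
  have hBM : F ⊓ normalizer (M : Set G) ≤ normalizer (M : Set G) := inf_le_right
  have hCM : L ⊓ normalizer (M : Set G) ≤ normalizer (M : Set G) := inf_le_right
  have hBC : F ⊓ normalizer (M : Set G) ≤ L ⊓ normalizer (M : Set G) := inf_le_inf_right _ hF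
  have hBf : Finite (F ⊓ normalizer (M : Set G) : Subgroup G) :=
    Finite.of_injective (inclusion hBF) (inclusion_injective hBF)
  have hCf : Finite (L ⊓ normalizer (M : Set G) : Subgroup G) :=
    Finite.of_injective (inclusion hCL) (inclusion_injective hCL)
  have hBs : Group.IsSolvable (F ⊓ normalizer (M : Set G) : Subgroup G) :=
    Group.isSolvable_of_isSolvable_injective (inclusion_injective hBF)
  have hCs : Group.IsSolvable (L ⊓ normalizer (M : Set G) : Subgroup G) :=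
    Group.isSolvable_of_isSolvable_injective (inclusion_injective hCL)
  have ha : ∀ a ∈ L, ∃ f ∈ F, cj a M = cj f M := by
    intro a ha
    by_contra hcon
    push Not at hcon
    obtain ⟨s, hs, hsM, hsB⟩ := hgt.g1 _ hBf hBs (isPi_mono (hBF.trans hF) hLπ) ((hBF.trans hF).trans hLE) hBM
    obtain ⟨e, he, hef, hse, hea⟩ := lift hE hEf hLf hM hLE hF hFs hco hC hs (fun f hf hfM => hsB f ⟨hf, hfM⟩)
    have h1 := hea a ha hcon
    rw [mem_cj] at h1
    have h2 := hef a⁻¹ (inv_mem ha)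
    rw [inv_inv] at h2
    rw [h2] at h1
    apply hsM
    have h3 : s = e * (s⁻¹ * e)⁻¹ := by group
    rw [h3]
    exact M.mul_mem h1 (M.inv_mem hse)
  have hb := hgt.g2 _ _ hBC hCf hCs (isPi_mono hCL hLπ) (hCL.trans hLE) hCM (by
    intro s hs hsB c hc
    obtain ⟨e, he, hef, hse, -⟩ := lift hE hEf hLf hM hLE hF hFs hco hC hs (fun f hf hfM => hsB f ⟨hf, hfM⟩)
    have h1 := hef c (hCL hc)
    have h2 : s⁻¹ * (c * s * c⁻¹) = (s⁻¹ * e) * (c * (s⁻¹ * e)⁻¹ * c⁻¹) := by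
      have h3 : (s⁻¹ * e) * (c * (s⁻¹ * e)⁻¹ * c⁻¹) = s⁻¹ * (e * (c * e * c⁻¹)⁻¹) * (c * s * c⁻¹) := by group
      rw [h3, h1]
      group
    rw [h2]
    exact M.mul_mem hse ((mem_normalizer_iff.1 (hCM hc) _).1 (M.inv_mem hse)))
  intro x hx
  obtain ⟨f, hf, hxf⟩ := ha x hx
  have h1 : f⁻¹ * x ∈ normalizer (M : Set G) := by
    rw [← cj_eq_iff, cj_mul, hxf, ← cj_mul, inv_mul_cancel, cj_one]
  obtain ⟨b, hb1, hb2⟩ := hb (f⁻¹ * x) ⟨L.mul_mem (L.inv_mem (hF hf)) hx, h1⟩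
  refine ⟨f * b, F.mul_mem hf (hBF hb1), ?_⟩
  rw [mul_inv_rev, mul_assoc]
  exact hb2

end MP0d06d9
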