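import Pool.Agent.Lib.MP_0d06d9_al.Defs

/-!
# JOB GTa: maximal normal subgroups

PROOFS.
* `maxN_normal`: `hM.nor` (`Subgroup.normal_subgroupOf_iff` or `normal_subgroupOf_iff_le_normalizer`).
* `maxN_simple`: nontrivial: `M ≠ E`. A normal subgroup `N'` of `E ⧸ M'` (`M' = M.subgroupOf E`): `N = (N'.comap (QuotientGroup.mk' M')).map E.subtype` is between `M` and `E` and normalised by `E`, so `N = M` or `N = E` by `hM.max`, hence `N' = ⊥` or `⊤`.
* `maxN_nonab`: otherwise `⁅a, b⁆ ∈ M` for all `a, b ∈ E`, so `E = ⁅E, E⁆ ≤ M`, contradiction (`commutator_le`).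
* `maxN_cj`: `x ∈ normalizer E`: conjugation by `x` is an automorphism of the ambient group fixing `E` and mapping `M` to `cj x M` (`mem_cj`; for `max` apply `hM.max` to `cj x⁻¹ N`, `cj_mul`, `cj_one`).
* `exists_maxN`: `E` finite, `E ≠ ⊥`: the set of the subgroups `N < E` normalised by `E` is finite (`Finite (Subgroup E)`; or use the strong induction on `Nat.card`) and contains `⊥`; take one with the largest `Nat.card`.
-/

set_option autoImplicit false

namespace MP0d06d9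

open Subgroup

variable {G : Type*} [Group G]

theorem maxN_normal {E M : Subgroup G} (hM : MaxN E M) : (M.subgroupOf E).Normal := by
  refine ⟨fun n hn g => ?_⟩
  rw [mem_subgroupOf] at hn ⊢
  exact (mem_normalizer_iff.1 (hM.nor g.2) n).1 hn

/-- an element of `E` outside `M` -/
private theorem gta1_out {E M : Subgroup G} (hM : MaxN E M) : ∃ e ∈ E, e ∉ M := by
  by_contra h
  refine hM.ne (le_antisymm hM.le fun e he => ?_)
  by_contra he'
  exact h ⟨e, he, he'⟩

theorem maxN_simple {E M : Subgroup G} (hM : MaxN E M) [(M.subgroupOf E).Normal] :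
    IsSimpleGroup (↥E ⧸ M.subgroupOf E) := by
  obtain ⟨e, he, heM⟩ := gta1_out hM
  have : Nontrivial (↥E ⧸ M.subgroupOf E) := by
    refine ⟨⟨QuotientGroup.mk ⟨e, he⟩, 1, fun h => heM ?_⟩⟩
    have h1 := (QuotientGroup.eq_one_iff (⟨e, he⟩ : E)).1 h
    rwa [mem_subgroupOf] at h1
  refine ⟨fun N' hN' => ?_⟩
  have hmem : ∀ y : G, y ∈ (N'.comap (QuotientGroup.mk' (M.subgroupOf E))).map E.subtype ↔
      ∃ h : y ∈ E, (QuotientGroup.mk (⟨y, h⟩ : E) : ↥E ⧸ M.subgroupOf E) ∈ N' := by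
    intro y
    rw [Subgroup.mem_map]
    constructor
    · rintro ⟨z, hz, rfl⟩
      exact ⟨z.2, hz⟩
    · rintro ⟨h, hy⟩
      exact ⟨⟨y, h⟩, hy, rfl⟩
  have hconj : ∀ g ∈ E, ∀ y ∈ (N'.comap (QuotientGroup.mk' (M.subgroupOf E))).map E.subtype,
      g * y * g⁻¹ ∈ (N'.comap (QuotientGroup.mk' (M.subgroupOf E))).map E.subtype := by
    intro g hg y hy
    rw [hmem] at hy ⊢
    obtain ⟨hyE, hy⟩ := hy
    exact ⟨E.mul_mem (E.mul_mem hg hyE) (E.inv_mem hg),
      hN'.conj_mem _ hy (QuotientGroup.mk (⟨g, hg⟩ : E))⟩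
  rcases hM.max ((N'.comap (QuotientGroup.mk' (M.subgroupOf E))).map E.subtype)
    (fun y hy => (hmem y).2 ⟨hM.le hy, by
      rw [(QuotientGroup.eq_one_iff (⟨y, hM.le hy⟩ : E)).2 (mem_subgroupOf.2 hy)]
      exact N'.one_mem⟩)
    (fun y hy => ((hmem y).1 hy).1)
    (fun g hg => by
      rw [mem_normalizer_iff]
      refine fun y => ⟨hconj g hg y, fun hy => ?_⟩
      have h1 := hconj g⁻¹ (E.inv_mem hg) _ hy
      have e1 : g⁻¹ * (g * y * g⁻¹) * g⁻¹⁻¹ = y := by group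
      rwa [e1] at h1) with h | h
  · left
    rw [eq_bot_iff]
    intro q hq
    obtain ⟨y, rfl⟩ := QuotientGroup.mk_surjective q
    have h1 : (y : G) ∈ M := by
      rw [← h, hmem]
      exact ⟨y.2, hq⟩
    rw [Subgroup.mem_bot]
    exact (QuotientGroup.eq_one_iff y).2 (mem_subgroupOf.2 h1)
  · right
    rw [eq_top_iff]
    intro q _
    obtain ⟨y, rfl⟩ := QuotientGroup.mk_surjective q
    have h1 : (y : G) ∈ (N'.comap (QuotientGroup.mk' (M.subgroupOf E))).map E.subtype := by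
      rw [h]
      exact y.2
    rw [hmem] at h1
    exact h1.2

theorem maxN_nonab {E M : Subgroup G} (hE : ⁅E, E⁆ = E) (hM : MaxN E M)
    [(M.subgroupOf E).Normal] : ∃ a b : ↥E ⧸ M.subgroupOf E, a * b ≠ b * a := by
  by_contra hc
  have hcomm : ∀ a b : ↥E ⧸ M.subgroupOf E, a * b = b * a := by
    intro a b
    by_contra h
    exact hc ⟨a, b, h⟩
  refine hM.ne (le_antisymm hM.le ?_)
  rw [← hE, Subgroup.commutator_le]
  intro a ha b hb
  have h1 : (QuotientGroup.mk (⟨a, ha⟩ * ⟨b, hb⟩ * (⟨a, ha⟩)⁻¹ * (⟨b, hb⟩)⁻¹ : E) :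
      ↥E ⧸ M.subgroupOf E) = 1 := by
    have h2 := hcomm (QuotientGroup.mk (⟨a, ha⟩ : E)) (QuotientGroup.mk (⟨b, hb⟩ : E))
    rw [QuotientGroup.mk_mul, QuotientGroup.mk_mul, QuotientGroup.mk_mul, h2,
      QuotientGroup.mk_inv, QuotientGroup.mk_inv, mul_inv_cancel_right, mul_inv_cancel]
  have h3 := mem_subgroupOf.1 ((QuotientGroup.eq_one_iff _).1 h1)
  rw [commutatorElement_def]
  exact h3

private theorem gta2_cj_mono {M N : Subgroup G} (x : G) (h : M ≤ N) : cj x M ≤ cj x N := by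
  intro y hy
  rw [mem_cj] at hy ⊢
  exact h hy

private theorem gta2_inv_cj (x : G) (M : Subgroup G) : cj x⁻¹ (cj x M) = M := by
  rw [← cj_mul, inv_mul_cancel, cj_one]

private theorem gta2_cj_inv (x : G) (M : Subgroup G) : cj x (cj x⁻¹ M) = M := by
  rw [← cj_mul, mul_inv_cancel, cj_one]

private theorem gta2_nor {E M : Subgroup G} (hM : E ≤ normalizer (M : Set G)) {x : G}
    (hx : x ∈ normalizer (E : Set G)) : E ≤ normalizer ((cj x M : Subgroup G) : Set G) := by
  intro e he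
  rw [← cj_eq_iff, ← cj_mul]
  have h1 : x⁻¹ * e * x ∈ E := by
    rw [← mem_cj, cj_eq_iff.2 hx]
    exact he
  have h2 : e * x = x * (x⁻¹ * e * x) := by group
  rw [h2, cj_mul, cj_eq_iff.2 (hM h1)]

theorem maxN_cj {E M : Subgroup G} (hM : MaxN E M) {x : G} (hx : x ∈ normalizer (E : Set G)) :
    MaxN E (cj x M) := by
  have hxE : cj x E = E := cj_eq_iff.2 hx
  have hx' : x⁻¹ ∈ normalizer (E : Set G) := inv_mem hx
  have hxE' : cj x⁻¹ E = E := cj_eq_iff.2 hx'
  constructor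
  · calc cj x M ≤ cj x E := gta2_cj_mono x hM.le
      _ = E := hxE
  · intro h
    apply hM.ne
    rw [← gta2_inv_cj x M, h, hxE']
  · exact gta2_nor hM.nor hx
  · intro N h1 h2 h3
    have h4 : M ≤ cj x⁻¹ N := by
      rw [← gta2_inv_cj x M]
      exact gta2_cj_mono x⁻¹ h1
    have h5 : cj x⁻¹ N ≤ E := by
      rw [← hxE']
      exact gta2_cj_mono x⁻¹ h2
    rcases hM.max (cj x⁻¹ N) h4 h5 (gta2_nor h3 hx') with h6 | h6
    · left
      rw [← h6, gta2_cj_inv]
    · right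
      rw [← gta2_cj_inv x N, h6, hxE]

theorem exists_maxN {E : Subgroup G} (hE : Finite E) (h : E ≠ ⊥) : ∃ M, MaxN E M := by
  let T : Set (Subgroup G) := {N | N ≤ E ∧ N ≠ E ∧ E ≤ normalizer (N : Set G)}
  have hT : T.Nonempty := by
    refine ⟨⊥, bot_le, h.symm, ?_⟩
    intro e _
    rw [← cj_eq_iff]
    exact Subgroup.map_bot _
  obtain ⟨M, hM, hmin⟩ := (measure fun N : Subgroup G => Nat.card E - Nat.card N).wf.has_min T hT
  refine ⟨M, hM.1, hM.2.1, hM.2.2, ?_⟩
  intro N h1 h2 h3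
  by_cases h4 : N = E
  · right
    exact h4
  · left
    have h5 := hmin N ⟨h2, h4, h3⟩
    have h6 : ¬ (Nat.card E - Nat.card N < Nat.card E - Nat.card M) := h5
    have hNf : Finite N := Finite.Set.subset (E : Set G) h2
    have h7 : Nat.card N ≤ Nat.card E := Subgroup.card_le_of_le h2
    have h8 : Nat.card M ≤ Nat.card E := Subgroup.card_le_of_le hM.1
    exact (Subgroup.eq_of_le_of_card_ge h1 (by omega)).symm

end MP0d06d9
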