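import Pool.Agent.Lib.MP_0d06d9_al.FL

/-!
# JOB Ker: the kernels of the actions on the simple sections

PROOFS.
* `exists_cen`: the set `{x ∈ X | Tr E M x}` is a subgroup. `1`: clear. Product: `x, y`: `e ∈ E`, `e' = y * e * y⁻¹ ∈ E` (`y ∈ X ≤ normalizer E`), `e⁻¹ * e' ∈ M`, `e'⁻¹ * (x * e' * x⁻¹) ∈ M`, the product of these is `e⁻¹ * (x y e y⁻¹ x⁻¹)`. Inverse: `e' = x⁻¹ * e * x ∈ E`: `e'⁻¹ * (x * e' * x⁻¹) = e'⁻¹ * e ∈ M`, its inverse is `e⁻¹ * e'`.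
* `tr_cj`: `k ∈ normalizer E`: `Tr E (cj k M) (k * x * k⁻¹) ↔ Tr E M x`: `e = k * e' * k⁻¹`, `mem_cj`.
* `ker_conj`: `k ∈ X`, `Ker H X U`, then `Ker H X (cj k U)`: if `U = X` then `cj k X = X` (`cj_eq_iff`, `le_normalizer`); otherwise the pair `(E, cj k M)` (`maxN_cj`, `tr_cj`, `mem_cj`).
* `ker_star`: if `U = X`: `f = 1`. Otherwise `fl` for `L ⊓ X` (finite, `IsPi` as `≤ K`; soluble: `h.solK` for a finset with closure `L ⊓ X`: `Set.Finite.toFinset`, `closure_eq`), `F ≤ L ⊓ X`, `E`, `M`; `hC`: `e ∈ E ≤ H` fixed by `F` is in `H ⊓ centralizer F = H ⊓ centralizer L` (`mem_centralizer_iff`);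
  `GT` from `gt_of_sec h.sec`. `fl` gives `f ∈ F` with `Tr E M (f⁻¹ * x)`, and `f⁻¹ * x ∈ X`.
-/

set_option autoImplicit false

namespace MP0d06d9

open Subgroup

variable {G : Type*} [Group G]

theorem exists_cen {X E M : Subgroup G} (hX : X ≤ normalizer (E : Set G)) :
    ∃ U : Subgroup G, ∀ x, x ∈ U ↔ x ∈ X ∧ Tr E M x := by
  refine ⟨{ carrier := {x | x ∈ X ∧ Tr E M x}, mul_mem' := ?_, one_mem' := ?_, inv_mem' := ?_ },
    fun x => Iff.rfl⟩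
  · rintro x y ⟨hx, hxt⟩ ⟨hy, hyt⟩
    refine ⟨X.mul_mem hx hy, ?_⟩
    intro e he
    have he' : y * e * y⁻¹ ∈ E := (mem_normalizer_iff.1 (hX hy) e).1 he
    have h1 := M.mul_mem (hyt e he) (hxt _ he')
    have h2 : e⁻¹ * (y * e * y⁻¹) * ((y * e * y⁻¹)⁻¹ * (x * (y * e * y⁻¹) * x⁻¹)) =
        e⁻¹ * (x * y * e * (x * y)⁻¹) := by group
    rwa [h2] at h1
  · refine ⟨X.one_mem, ?_⟩
    intro e _
    have h2 : e⁻¹ * (1 * e * (1 : G)⁻¹) = 1 := by group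
    rw [h2]
    exact M.one_mem
  · rintro x ⟨hx, hxt⟩
    refine ⟨X.inv_mem hx, ?_⟩
    intro e he
    have he' : x⁻¹ * e * x ∈ E := (mem_normalizer_iff''.1 (hX hx) e).1 he
    have h1 := M.inv_mem (hxt _ he')
    have h2 : ((x⁻¹ * e * x)⁻¹ * (x * (x⁻¹ * e * x) * x⁻¹))⁻¹ =
        e⁻¹ * (x⁻¹ * e * x⁻¹⁻¹) := by group
    rwa [h2] at h1

theorem tr_cj {E M : Subgroup G} {k : G} (hk : k ∈ normalizer (E : Set G)) (x : G) :
    Tr E (cj k M) (k * x * k⁻¹) ↔ Tr E M x := by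
  constructor
  · intro h e he
    have he' : k * e * k⁻¹ ∈ E := (mem_normalizer_iff.1 hk e).1 he
    have h1 := mem_cj.1 (h _ he')
    have h2 : k⁻¹ * ((k * e * k⁻¹)⁻¹ * (k * x * k⁻¹ * (k * e * k⁻¹) * (k * x * k⁻¹)⁻¹)) * k =
        e⁻¹ * (x * e * x⁻¹) := by group
    rwa [h2] at h1
  · intro h e he
    have he' : k⁻¹ * e * k ∈ E := (mem_normalizer_iff''.1 hk e).1 he
    have h1 := h _ he'
    rw [mem_cj]
    have h2 : k⁻¹ * (e⁻¹ * (k * x * k⁻¹ * e * (k * x * k⁻¹)⁻¹)) * k =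
        (k⁻¹ * e * k)⁻¹ * (x * (k⁻¹ * e * k) * x⁻¹) := by group
    rwa [h2]

theorem ker_conj {H X U : Subgroup G} (h : Ker H X U) {k : G} (hk : k ∈ X) : Ker H X (cj k U) := by
  rcases h with rfl | ⟨E, M, hV, hU⟩
  · left
    exact cj_eq_iff.2 (le_normalizer hk)
  · right
    have hkE : k ∈ normalizer (E : Set G) := hV.nor hk
    refine ⟨E, cj k M, ⟨hV.le, hV.fin, hV.perf, hV.nor, maxN_cj hV.max hkE⟩, ?_⟩
    intro x
    rw [mem_cj, hU]
    have h1 := tr_cj (M := M) hkE (k⁻¹ * x * k)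
    have h2 : k * (k⁻¹ * x * k) * k⁻¹ = x := by group
    rw [h2] at h1
    rw [h1]
    have h3 : k⁻¹ * x * k ∈ X ↔ x ∈ X := by
      rw [Subgroup.mul_mem_cancel_right X hk, Subgroup.mul_mem_cancel_left X (X.inv_mem hk)]
    rw [h3]

theorem ker_star {π : Set ℕ} {H K : Subgroup G} (h : Ctx π H K) {L F X U : Subgroup G}
    (hL : L ≤ K) (hF : F ≤ L) (hFf : Finite F)
    (hC : H ⊓ centralizer (L : Set G) = H ⊓ centralizer (F : Set G)) (hX : X ≤ K)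
    (hXf : Finite X) (hFX : F ≤ X) (hU : Ker H X U) {x : G} (hx : x ∈ L) (hxX : x ∈ X) :
    ∃ f ∈ F, f⁻¹ * x ∈ U := by
  rcases hU with hU | ⟨E, M, hV, hUm⟩
  · refine ⟨1, F.one_mem, ?_⟩
    rw [hU, inv_one, one_mul]
    exact hxX
  · have hfin : Finite ↥(L ⊓ X) :=
      Finite.of_injective (Subgroup.inclusion (inf_le_right : L ⊓ X ≤ X))
        (Subgroup.inclusion_injective _)
    have hsf : ((L ⊓ X : Subgroup G) : Set G).Finite := Set.toFinite _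
    have hsol : Group.IsSolvable ↥(L ⊓ X) := by
      have h1 := h.solK hsf.toFinset (by
        rw [Set.Finite.coe_toFinset]
        exact fun y hy => hX hy.2)
      rw [Set.Finite.coe_toFinset, closure_eq] at h1
      exact h1
    have hcomm : ∀ e ∈ E, (∀ f ∈ F, f * e * f⁻¹ = e) → ∀ a ∈ L ⊓ X, a * e * a⁻¹ = e := by
      intro e he hfe a ha
      have h2 : e ∈ H ⊓ centralizer (F : Set G) := by
        refine ⟨hV.le he, ?_⟩
        refine mem_centralizer_iff.2 fun f hf => ?_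
        have h3 := hfe f hf
        exact mul_inv_eq_iff_eq_mul.1 h3
      rw [← hC] at h2
      have h4 := mem_centralizer_iff.1 h2.2 a ha.1
      rw [h4, mul_inv_cancel_right]
    obtain ⟨f, hf, htr⟩ := fl (π := π) hV.perf hV.fin hfin hsol
      (isPi_mono ((inf_le_right).trans hX) h.piK) (isPi_mono hV.le h.piH) hV.max
      ((inf_le_right).trans hV.nor) (le_inf hF hFX) hcomm
      (gt_of_sec h.sec hV.le hV.fin hV.perf hV.max) x ⟨hx, hxX⟩
    exact ⟨f, hf, (hUm _).2 ⟨X.mul_mem (X.inv_mem (hFX hf)) hxX, htr⟩⟩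

end MP0d06d9
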