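import Pool.Agent.Lib.MP_0d06d9_al.CLb
import Pool.Agent.Lib.MP_0d06d9_al.CRT
import Pool.Agent.Lib.MP_0d06d9_al.GTa

/-!
# JOB Lift: lifting fixed elements of a simple section

`L` normalises `E`; `F ≤ L` has the same centraliser in `E` as `L`; `s ∈ E` is fixed modulo `M` by the elements of `F` which normalise `M`.
PROOF. Let `T = {cj a M | a ∈ L}` (a finite set of maximal normal subgroups of `E`: `maxN_cj`; `Finset` from `Set.Finite.toFinset` of the image of the finite set `L`) and `N = {z | ∀ a ∈ L, z ∈ cj a M}`, e.g. `N = ⨅ a : L, cj a M` (or `T.inf id`): `N ≤ M ≤ E` (`a = 1`), so `N` is finite; `F` normalises `N`: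
`z ∈ N`, `f ∈ F`: `f * z * f⁻¹ ∈ cj a M ↔ z ∈ cj (f⁻¹ * a) M` (`mem_cj`), use `mem_normalizer_iff` with `f` and `f⁻¹`.
Define `c : Subgroup G → G` by `c M' = f * s * f⁻¹` if there is `f ∈ F` with `M' = cj f M` (choose one), and `c M' = 1` otherwise.
(1) well defined: if `f, f' ∈ F`, `cj f M = cj f' M` then `f⁻¹ * f' ∈ normalizer M` (`cj_eq_iff`, `cj_mul`), so `s⁻¹ * (f⁻¹ f' s f'⁻¹ f) ∈ M`, i.e. `(f s f⁻¹)⁻¹ * (f' s f'⁻¹) ∈ cj f M`.
So `(c M')⁻¹ * (f s f⁻¹) ∈ M'` whenever `f ∈ F`, `M' = cj f M`.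
(2) for `f ∈ F` and `M' ∈ T`, `M'' = cj f M'`: `(f * c M' * f⁻¹)⁻¹ * c M'' ∈ M''`. If `M' = cj f' M`, `f' ∈ F`, then `M'' = cj (f f') M` and by (1) `c M' ≡ f' s f'⁻¹ (mod M')`, `f (c M') f⁻¹ ≡ f f' s f'⁻¹ f⁻¹ (mod M'')`, `c M'' ≡` the same. If `M'` is not of this form then neither is `M''` and both are `1`.
`crt` for `T`, `c`: `x ∈ E` with `(c M')⁻¹ * x ∈ M'` for all `M' ∈ T`. Then `x⁻¹ * (f * x * f⁻¹) ∈ N` for `f ∈ F`: for `M'' ∈ T`, `M' = cj f⁻¹ M'' ∈ T`: `x ≡ c M' (mod M')`, `f x f⁻¹ ≡ f (c M') f⁻¹ ≡ c M'' ≡ x (mod M'')`.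
`cl` for `A = F`, `N`, `g = x` (coprime: `Nat.card N ∣ Nat.card E`, `Subgroup.card_dvd_of_le`): `n ∈ N` with `e = x * n` fixed by `F`, so by `L` (`hC`). `s⁻¹ * e ∈ M` as `c M ≡ s (mod M)` (case `f = 1` of (1)). For `a ∈ L` with `cj a M ≠ cj f M` for all `f ∈ F`: `c (cj a M) = 1`, so `x ∈ cj a M` and `e ∈ cj a M`.
-/

set_option autoImplicit false

namespace MP0d06d9

open Subgroup

variable {G : Type*} [Group G]

/-- the representatives on the orbit of `M` -/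
private theorem lift_c {F E M : Subgroup G} (hFE : F ≤ normalizer (E : Set G)) {s : G}
    (hs : s ∈ E) (hsF : ∀ f ∈ F, f ∈ normalizer (M : Set G) → s⁻¹ * (f * s * f⁻¹) ∈ M) :
    ∃ c : Subgroup G → G, (∀ f ∈ F, (c (cj f M))⁻¹ * (f * s * f⁻¹) ∈ cj f M) ∧
      (∀ M', (∀ f ∈ F, M' ≠ cj f M) → c M' = 1) ∧ ∀ M', c M' ∈ E := by
  classical
  refine ⟨fun M' => if h : ∃ f ∈ F, M' = cj f M then h.choose * s * h.choose⁻¹ else 1, ?_, ?_, ?_⟩
  · intro f hf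
    have h : ∃ f' ∈ F, cj f M = cj f' M := ⟨f, hf, rfl⟩
    show (if h : ∃ f' ∈ F, cj f M = cj f' M then h.choose * s * h.choose⁻¹ else 1)⁻¹ *
      (f * s * f⁻¹) ∈ cj f M
    rw [dif_pos h]
    obtain ⟨f', hf'⟩ : ∃ f', f' = h.choose := ⟨_, rfl⟩
    obtain ⟨h1, h2⟩ := h.choose_spec
    rw [← hf'] at h1 h2 ⊢
    have h3 : f⁻¹ * f' ∈ normalizer (M : Set G) := by
      rw [← cj_eq_iff, cj_mul, ← h2, ← cj_mul, inv_mul_cancel, cj_one]
    have h4 := M.inv_mem (hsF _ (F.mul_mem (F.inv_mem hf) h1) h3)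
    rw [mem_cj]
    have e : f⁻¹ * ((f' * s * f'⁻¹)⁻¹ * (f * s * f⁻¹)) * f =
        (s⁻¹ * (f⁻¹ * f' * s * (f⁻¹ * f')⁻¹))⁻¹ := by group
    rw [e]
    exact h4
  · intro M' hM'
    show (if h : ∃ f' ∈ F, M' = cj f' M then h.choose * s * h.choose⁻¹ else 1) = 1
    rw [dif_neg]
    rintro ⟨f, hf, h⟩
    exact hM' f hf h
  · intro M'
    show (if h : ∃ f' ∈ F, M' = cj f' M then h.choose * s * h.choose⁻¹ else 1) ∈ E
    split_ifs with h
    · exact (mem_normalizer_iff.1 (hFE h.choose_spec.1) s).1 hs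
    · exact E.one_mem

private theorem lift_cj {M : Subgroup G} {f z : G} (hz : z ∈ M) : f * z * f⁻¹ ∈ cj f M := by
  rw [mem_cj]
  have e : f⁻¹ * (f * z * f⁻¹) * f = z := by group
  rw [e]
  exact hz

/-- the compatibility of the representatives with the action of `F` -/
private theorem lift_step {L F M : Subgroup G} (hF : F ≤ L) {s : G} {c : Subgroup G → G}
    (h1 : ∀ f ∈ F, (c (cj f M))⁻¹ * (f * s * f⁻¹) ∈ cj f M)
    (h2 : ∀ M', (∀ f ∈ F, M' ≠ cj f M) → c M' = 1) {x : G}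
    (hx : ∀ a ∈ L, (c (cj a M))⁻¹ * x ∈ cj a M) {f a : G} (hf : f ∈ F) (ha : a ∈ L) :
    x⁻¹ * (f * x * f⁻¹) ∈ cj a M := by
  obtain ⟨M', hM'⟩ : ∃ M', M' = cj (f⁻¹ * a) M := ⟨_, rfl⟩
  have hM'' : cj f M' = cj a M := by
    rw [hM', ← cj_mul, mul_inv_cancel_left]
  have ha' : f⁻¹ * a ∈ L := L.mul_mem (L.inv_mem (hF hf)) ha
  have h3 : (f * c M' * f⁻¹)⁻¹ * (f * x * f⁻¹) ∈ cj a M := by
    have h4 := hx _ ha'
    rw [← hM'] at h4
    have h5 := lift_cj (f := f) h4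
    rw [hM''] at h5
    have e : f * ((c M')⁻¹ * x) * f⁻¹ = (f * c M' * f⁻¹)⁻¹ * (f * x * f⁻¹) := by group
    rw [← e]
    exact h5
  have h4 : (f * c M' * f⁻¹)⁻¹ * c (cj a M) ∈ cj a M := by
    by_cases h : ∃ f' ∈ F, M' = cj f' M
    · obtain ⟨f', hf', h5⟩ := h
      have h6 : cj a M = cj (f * f') M := by
        rw [cj_mul, ← h5, hM'']
      have h7 := h1 f' hf'
      rw [← h5] at h7
      have h8 := lift_cj (f := f) h7
      rw [hM''] at h8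
      have h9 := h1 _ (F.mul_mem hf hf')
      rw [← h6] at h9
      have h10 := (cj a M).mul_mem h8 ((cj a M).inv_mem h9)
      have e : f * ((c M')⁻¹ * (f' * s * f'⁻¹)) * f⁻¹ *
          ((c (cj a M))⁻¹ * (f * f' * s * (f * f')⁻¹))⁻¹ =
          (f * c M' * f⁻¹)⁻¹ * c (cj a M) := by group
      rw [e] at h10
      exact h10
    · have h5 : c M' = 1 := h2 _ fun f' hf' h6 => h ⟨f', hf', h6⟩
      have h6 : c (cj a M) = 1 := by
        apply h2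
        intro f' hf' h7
        apply h
        refine ⟨f⁻¹ * f', F.mul_mem (F.inv_mem hf) hf', ?_⟩
        rw [cj_mul, ← h7, hM', cj_mul]
      rw [h5, h6]
      have e : (f * 1 * f⁻¹)⁻¹ * 1 = 1 := by group
      rw [e]
      exact (cj a M).one_mem
  have h5 := (cj a M).mul_mem ((cj a M).mul_mem ((cj a M).inv_mem (hx a ha))
    ((cj a M).inv_mem h4)) h3
  have e : ((c (cj a M))⁻¹ * x)⁻¹ * ((f * c M' * f⁻¹)⁻¹ * c (cj a M))⁻¹ *
      ((f * c M' * f⁻¹)⁻¹ * (f * x * f⁻¹)) = x⁻¹ * (f * x * f⁻¹) := by group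
  rw [e] at h5
  exact h5

private theorem lift_nor {L M N : Subgroup G} (hN : ∀ z, z ∈ N ↔ ∀ a ∈ L, z ∈ cj a M) :
    L ≤ normalizer (N : Set G) := by
  have key : ∀ f ∈ L, ∀ z ∈ N, f * z * f⁻¹ ∈ N := by
    intro f hf z hz
    rw [hN] at hz ⊢
    intro a ha
    have h1 := lift_cj (f := f) (hz _ (L.mul_mem (L.inv_mem hf) ha))
    rw [← cj_mul, mul_inv_cancel_left] at h1
    exact h1
  intro f hf
  rw [mem_normalizer_iff]
  intro z
  refine ⟨key f hf z, fun h => ?_⟩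
  have h1 := key f⁻¹ (L.inv_mem hf) _ h
  have e : f⁻¹ * (f * z * f⁻¹) * f⁻¹⁻¹ = z := by group
  rw [e] at h1
  exact h1

theorem lift {L F E M : Subgroup G} (hE : ⁅E, E⁆ = E) (hEf : Finite E) (hLf : Finite L)
    (hM : MaxN E M) (hLE : L ≤ normalizer (E : Set G)) (hF : F ≤ L) (hFs : Group.IsSolvable F)
    (hco : (Nat.card F).Coprime (Nat.card E))
    (hC : ∀ e ∈ E, (∀ f ∈ F, f * e * f⁻¹ = e) → ∀ a ∈ L, a * e * a⁻¹ = e)
    {s : G} (hs : s ∈ E)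
    (hsF : ∀ f ∈ F, f ∈ normalizer (M : Set G) → s⁻¹ * (f * s * f⁻¹) ∈ M) :
    ∃ e ∈ E, (∀ a ∈ L, a * e * a⁻¹ = e) ∧ s⁻¹ * e ∈ M ∧
      ∀ a ∈ L, (∀ f ∈ F, cj a M ≠ cj f M) → e ∈ cj a M := by
  classical
  obtain ⟨c, h1, h2, h3⟩ := lift_c (hF.trans hLE) hs hsF
  have hfin : (L : Set G).Finite := Set.toFinite _
  have hmem : ∀ M', M' ∈ hfin.toFinset.image (fun a => cj a M) ↔ ∃ a ∈ L, cj a M = M' := by
    intro M'
    rw [Finset.mem_image]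
    constructor
    · rintro ⟨a, ha, h⟩
      exact ⟨a, hfin.mem_toFinset.1 ha, h⟩
    · rintro ⟨a, ha, h⟩
      exact ⟨a, hfin.mem_toFinset.2 ha, h⟩
  obtain ⟨x, hxE, hx'⟩ := crt hE (hfin.toFinset.image (fun a => cj a M)) (by
    intro M' hM'
    obtain ⟨a, ha, rfl⟩ := (hmem M').1 hM'
    exact maxN_cj hM (hLE ha)) c fun M' _ => h3 M'
  have hx : ∀ a ∈ L, (c (cj a M))⁻¹ * x ∈ cj a M := fun a ha => hx' _ ((hmem _).2 ⟨a, ha, rfl⟩)
  obtain ⟨N, hN⟩ : ∃ N : Subgroup G, ∀ z, z ∈ N ↔ ∀ a ∈ L, z ∈ cj a M := by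
    refine ⟨⨅ a : L, cj (a : G) M, fun z => ?_⟩
    rw [Subgroup.mem_iInf]
    exact ⟨fun h a ha => h ⟨a, ha⟩, fun h a => h a a.2⟩
  have hNM : N ≤ M := by
    intro z hz
    have h4 := (hN z).1 hz 1 L.one_mem
    rwa [cj_one] at h4
  have hNE : N ≤ E := hNM.trans hM.le
  have hNf : Finite N := Finite.of_injective _ (Subgroup.inclusion_injective hNE)
  have hFf : Finite F := Finite.of_injective _ (Subgroup.inclusion_injective hF)
  obtain ⟨n, hn, hfix⟩ := cl F N hFf hFs hNf (hF.trans (lift_nor hN))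
    (hco.coprime_dvd_right (Subgroup.card_dvd_of_le hNE)) x (by
      intro f hf
      rw [hN]
      intro a ha
      exact lift_step hF h1 h2 hx hf ha)
  refine ⟨x * n, E.mul_mem hxE (hNE hn), hC _ (E.mul_mem hxE (hNE hn)) hfix, ?_, ?_⟩
  · have h4 := h1 1 F.one_mem
    have h5 := hx 1 L.one_mem
    rw [cj_one] at h4 h5
    have h6 := M.mul_mem (M.mul_mem (M.inv_mem h4) h5) (hNM hn)
    have e : ((c M)⁻¹ * (1 * s * 1⁻¹))⁻¹ * ((c M)⁻¹ * x) * n = s⁻¹ * (x * n) := by group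
    rw [e] at h6
    exact h6
  · intro a ha h
    have h4 := hx a ha
    rw [h2 _ h, inv_one, one_mul] at h4
    exact (cj a M).mul_mem h4 ((hN n).1 hn a ha)

end MP0d06d9
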