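import Pool.Agent.Lib.MP_0d06d9_al.SolA
import Pool.Agent.Lib.MP_0d06d9_al.Ker

/-!
# JOB SolB: local solubility

`H1` finite subgroup of `H`, normalised by the finite subgroup `X`; `X0 ≤ X` consists of elements lying in all the `U` with `Ker H X U`, and is normalised by `X`.
PROOFS.
* `X0_exists`: `X0 = {x ∈ X | ∀ U, Ker H X U → x ∈ U}` is a subgroup (intersection), normalised by `X`: `k ∈ X`, `x ∈ X0`: `k * x * k⁻¹ ∈ U` because `x ∈ cj k⁻¹ U` (`ker_conj`, `mem_cj`); the same for `k⁻¹` (`mem_normalizer_iff`).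
* `solv_core`: `D = ⁅H1, X0⁆`. `D ≤ H1`: `⁅g, x⁆ = g * (x * g⁻¹ * x⁻¹)`, `X0 ≤ X ≤ normalizer H1`; so `D` is finite. Suppose `D` is not soluble; `E` from `exists_perfect`. `H1 ≤ normalizer D` (`normal_subgroupOf_commutator_sup`: `D` is normal in `H1 ⊔ X0`), `X ≤ normalizer D` (`X` normalises `H1` and `X0`: conjugation by `k` maps `⁅H1, X0⁆` to `⁅cj k H1, cj k X0⁆`, `Subgroup.map_commutator`, `cj_eq_iff`).
  So `H1` and `X` normalise `E`. `E ≤ H1 ≤ H` is finite. For every `M` with `MaxN E M` the pair `(E, M)` is valid: `Val H X E M`, so by `exists_cen` and `Ker` every `x ∈ X0` satisfies `Tr E M x`.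
  `Z = {g | g ∈ normalizer E ∧ ∀ M, MaxN E M → Tr E M g}` is a subgroup (`exists_cen` for `X = normalizer E` and each `M`, or the same computation), contains `X0`, and is normalised by `H1`: `g ∈ H1`, `z ∈ Z`: `g * z * g⁻¹ ∈ normalizer E` and `Tr E M (g * z * g⁻¹)` follows from `Tr E (cj g⁻¹ M) z` (`tr_cj`, `maxN_cj`, `cj_mul`, `cj_one`).
  So `⁅g, x⁆ = (g * x * g⁻¹) * x⁻¹ ∈ Z` for `g ∈ H1`, `x ∈ X0`: `D ≤ Z` (`commutator_le`), `E ≤ D ≤ Z`. Let `M` be from `exists_maxN`: for `g, e ∈ E`: `e⁻¹ * (g * e * g⁻¹) ∈ M`, so `⁅E, E⁆ ≤ M` (`⁅e⁻¹, g⁆ = e⁻¹ * g * e * g⁻¹`), `E ≤ M`, `M = E`: contradiction to `MaxN.ne`.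
* `locsol_of`: `S` finite `⊆ ⁅H, K₀⁆`; `fg_comm`: `A ⊆ H`, `B ⊆ K₀`; `X` from `h0` for `B`; `X0` from `X0_exists`, `closure B ≤ X0`. `H1 = H ⊓ closure (A ∪ X)` (finite by `lf`, as `X` is finite; contains `closure A`; normalised by `X` because `H` is normal and `X ≤ closure (A ∪ X)`). `closure S ≤ ⁅H1, X0⁆` (`commutator_mono`, `closure_le`), soluble by `solv_core`, `solv_mono`.
-/

set_option autoImplicit false

namespace MP0d06d9

open Subgroup

variable {G : Type*} [Group G]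

theorem X0_exists (H X : Subgroup G) : ∃ X0 : Subgroup G, X ≤ normalizer (X0 : Set G) ∧
    ∀ x, x ∈ X0 ↔ x ∈ X ∧ ∀ U, Ker H X U → x ∈ U := by
  have hex : ∃ X0 : Subgroup G, ∀ x, x ∈ X0 ↔ x ∈ X ∧ ∀ U, Ker H X U → x ∈ U := by
    refine ⟨{ carrier := {x | x ∈ X ∧ ∀ U, Ker H X U → x ∈ U}
              mul_mem' := ?_
              one_mem' := ?_
              inv_mem' := ?_ }, fun x => Iff.rfl⟩
    · intro a b ha hb
      exact ⟨X.mul_mem ha.1 hb.1, fun U hU => U.mul_mem (ha.2 U hU) (hb.2 U hU)⟩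
    · exact ⟨X.one_mem, fun U _ => U.one_mem⟩
    · intro a ha
      exact ⟨X.inv_mem ha.1, fun U hU => U.inv_mem (ha.2 U hU)⟩
  obtain ⟨X0, hX0⟩ := hex
  refine ⟨X0, ?_, hX0⟩
  have key : ∀ k ∈ X, cj k X0 ≤ X0 := by
    intro k hk y hy
    rw [mem_cj, hX0] at hy
    obtain ⟨h1, h2⟩ := hy
    rw [hX0]
    constructor
    · have e : y = k * (k⁻¹ * y * k) * k⁻¹ := by group
      rw [e]
      exact X.mul_mem (X.mul_mem hk h1) (X.inv_mem hk)
    · intro U hU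
      have h3 := h2 _ (ker_conj hU (X.inv_mem hk))
      rw [mem_cj] at h3
      have e : k⁻¹⁻¹ * (k⁻¹ * y * k) * k⁻¹ = y := by group
      rwa [e] at h3
  intro k hk
  rw [← cj_eq_iff]
  refine le_antisymm (key k hk) ?_
  intro x hx
  rw [mem_cj]
  refine key k⁻¹ (X.inv_mem hk) ?_
  rw [mem_cj]
  have e : k⁻¹⁻¹ * (k⁻¹ * x * k) * k⁻¹ = x := by group
  rwa [e]

theorem solv_core {H X H1 X0 : Subgroup G} (hH1 : H1 ≤ H) (hf : Finite H1)
    (hX1 : X ≤ normalizer (H1 : Set G)) (hXX : X ≤ normalizer (X0 : Set G)) (hX0 : X0 ≤ X)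
    (hk : ∀ x ∈ X0, ∀ U, Ker H X U → x ∈ U) : Group.IsSolvable (⁅H1, X0⁆ : Subgroup G) := by
  have hXN : X0 ≤ normalizer (H1 : Set G) := hX0.trans hX1
  have hDH : (⁅H1, X0⁆ : Subgroup G) ≤ H1 := by
    rw [commutator_le]
    intro g hg x hx
    have h1 : x * g⁻¹ * x⁻¹ ∈ H1 := (mem_normalizer_iff.1 (hXN hx) g⁻¹).1 (H1.inv_mem hg)
    have e : g * x * g⁻¹ * x⁻¹ = g * (x * g⁻¹ * x⁻¹) := by group
    rw [commutatorElement_def, e]
    exact H1.mul_mem hg h1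
  have hfD : Finite (⁅H1, X0⁆ : Subgroup G) :=
    Finite.of_injective (inclusion hDH) (inclusion_injective hDH)
  by_contra hns
  obtain ⟨E, hED, hEb, hEE, hnor⟩ := exists_perfect hfD hns
  have hHD : H1 ≤ normalizer ((⁅H1, X0⁆ : Subgroup G) : Set G) := by
    have h1 : (⁅H1, X0⁆ : Subgroup G) ≤ H1 ⊔ X0 := commutator_le_sup H1 X0
    have h2 := (normal_subgroupOf_iff_le_normalizer h1).1 (normal_subgroupOf_commutator_sup H1 X0)
    exact le_sup_left.trans h2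
  have hXD : X ≤ normalizer ((⁅H1, X0⁆ : Subgroup G) : Set G) := by
    intro k hk
    rw [← cj_eq_iff]
    have h1 : cj k (⁅H1, X0⁆ : Subgroup G) = (⁅cj k H1, cj k X0⁆ : Subgroup G) :=
      map_commutator H1 X0 _
    rw [h1, cj_eq_iff.2 (hX1 hk), cj_eq_iff.2 (hXX hk)]
  have hHE : H1 ≤ normalizer (E : Set G) := hHD.trans hnor
  have hXE : X ≤ normalizer (E : Set G) := hXD.trans hnor
  have hEH : E ≤ H := (hED.trans hDH).trans hH1
  have hEH1 : E ≤ H1 := hED.trans hDH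
  have hEf : Finite E := Finite.of_injective (inclusion hEH1) (inclusion_injective hEH1)
  have hTr : ∀ x ∈ X0, ∀ M, MaxN E M → Tr E M x := by
    intro x hx M hM
    obtain ⟨U, hU⟩ := exists_cen (M := M) hXE
    have h1 : Ker H X U := Or.inr ⟨E, M, ⟨hEH, hEf, hEE, hXE, hM⟩, hU⟩
    exact ((hU x).1 (hk x hx U h1)).2
  have hZ : ∃ Z : Subgroup G, ∀ g, g ∈ Z ↔ g ∈ normalizer (E : Set G) ∧
      ∀ M, MaxN E M → Tr E M g := by
    refine ⟨{ carrier := {g | g ∈ normalizer (E : Set G) ∧ ∀ M, MaxN E M → Tr E M g}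
              mul_mem' := ?_
              one_mem' := ?_
              inv_mem' := ?_ }, fun x => Iff.rfl⟩
    · intro a b ha hb
      refine ⟨mul_mem ha.1 hb.1, fun M hM => ?_⟩
      obtain ⟨U, hU⟩ := exists_cen (X := normalizer (E : Set G)) (M := M) le_rfl
      exact ((hU _).1 (U.mul_mem ((hU a).2 ⟨ha.1, ha.2 M hM⟩) ((hU b).2 ⟨hb.1, hb.2 M hM⟩))).2
    · refine ⟨one_mem _, fun M hM => ?_⟩
      obtain ⟨U, hU⟩ := exists_cen (X := normalizer (E : Set G)) (M := M) le_rfl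
      exact ((hU _).1 U.one_mem).2
    · intro a ha
      refine ⟨inv_mem ha.1, fun M hM => ?_⟩
      obtain ⟨U, hU⟩ := exists_cen (X := normalizer (E : Set G)) (M := M) le_rfl
      exact ((hU _).1 (U.inv_mem ((hU a).2 ⟨ha.1, ha.2 M hM⟩))).2
  obtain ⟨Z, hZ⟩ := hZ
  have hDZ : (⁅H1, X0⁆ : Subgroup G) ≤ Z := by
    rw [commutator_le]
    intro g hg x hx
    rw [commutatorElement_def]
    have hgE := hHE hg
    have hxE := hXE (hX0 hx)
    refine Z.mul_mem ?_ (Z.inv_mem ((hZ x).2 ⟨hxE, hTr x hx⟩))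
    rw [hZ]
    refine ⟨mul_mem (mul_mem hgE hxE) (inv_mem hgE), fun M hM => ?_⟩
    have h1 := (tr_cj (M := cj g⁻¹ M) hgE x).2 (hTr x hx _ (maxN_cj hM (inv_mem hgE)))
    rw [← cj_mul, mul_inv_cancel, cj_one] at h1
    exact h1
  obtain ⟨M, hM⟩ := exists_maxN hEf hEb
  have hEM : E ≤ M := by
    rw [← hEE, commutator_le]
    intro a ha b hb
    have h1 : Tr E M b := ((hZ b).1 (hDZ (hED hb))).2 M hM
    have h2 := h1 a⁻¹ (E.inv_mem ha)
    have e : a⁻¹⁻¹ * (b * a⁻¹ * b⁻¹) = a * b * a⁻¹ * b⁻¹ := by group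
    rw [e] at h2
    rw [commutatorElement_def]
    exact h2
  exact hM.ne (le_antisymm hM.le hEM)

theorem locsol_of {H K K₀ : Subgroup G} (lf : LocFin G) (hn : H.Normal)
    (h0 : ∀ T : Finset G, (T : Set G) ⊆ K₀ → ∃ X : Subgroup G, X ≤ K ∧ Finite X ∧
      (T : Set G) ⊆ X ∧ ∀ x ∈ T, ∀ U, Ker H X U → x ∈ U) : LocSol (⁅H, K₀⁆ : Subgroup G) := by
  classical
  intro S hS
  obtain ⟨A, B, hA, hB, hS'⟩ := fg_comm S hS
  obtain ⟨X, -, hXf, hBX, hk⟩ := h0 B hB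
  obtain ⟨X0, hXX, hX0⟩ := X0_exists H X
  have hXfin : (X : Set G).Finite := hXf
  let C : Subgroup G := closure ((A ∪ hXfin.toFinset : Finset G) : Set G)
  have hAC : (A : Set G) ⊆ C := fun a ha =>
    subset_closure (by
      rw [Finset.coe_union]
      exact Or.inl ha)
  have hXC : X ≤ C := fun x hx =>
    subset_closure (by
      rw [Finset.coe_union]
      exact Or.inr (hXfin.mem_toFinset.2 hx))
  have hCf : (C : Set G).Finite := lf (A ∪ hXfin.toFinset)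
  have hfin : Finite (H ⊓ C : Subgroup G) := hCf.subset fun y hy => hy.2
  have hX1 : X ≤ normalizer ((H ⊓ C : Subgroup G) : Set G) := by
    intro x hx
    rw [mem_normalizer_iff]
    intro y
    have hxC := hXC hx
    constructor
    · rintro ⟨h1, h2⟩
      exact ⟨hn.conj_mem y h1 x, C.mul_mem (C.mul_mem hxC h2) (C.inv_mem hxC)⟩
    · rintro ⟨h1, h2⟩
      have e : x⁻¹ * (x * y * x⁻¹) * x⁻¹⁻¹ = y := by group
      refine ⟨?_, ?_⟩
      · rw [← e]
        exact hn.conj_mem _ h1 x⁻¹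
      · rw [← e]
        exact C.mul_mem (C.mul_mem (C.inv_mem hxC) h2) (C.inv_mem (C.inv_mem hxC))
  have hBX0 : closure (B : Set G) ≤ X0 := by
    rw [closure_le]
    intro b hb
    exact (hX0 b).2 ⟨hBX hb, hk b hb⟩
  have hAH : closure (A : Set G) ≤ H ⊓ C := by
    rw [closure_le]
    intro a ha
    exact ⟨hA ha, hAC ha⟩
  have h2 := solv_core (inf_le_left : H ⊓ C ≤ H) hfin hX1 hXX (fun x hx => ((hX0 x).1 hx).1)
    (fun x hx => ((hX0 x).1 hx).2)
  refine solv_mono ?_ h2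
  rw [closure_le]
  exact hS'.trans (commutator_mono hAH hBX0)

end MP0d06d9
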