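import Pool.Agent.Lib.MP_0d06d9_al.Sel
import Pool.Agent.Lib.MP_0d06d9_al.SolB

/-!
# JOB Main: assembly

PROOFS.
* `main1`: if `LocSol K`: `exists_K0`, `locsol_of`, `comm_eq`. If `LocSol H`: `K₀ = K` (`Subgroup.relIndex_self`), `⁅H, K⁆ ≤ H` (normal; `Subgroup.commutator_le_left`), `comm_eq`.
* `main2`: `K₀` from `main1`. `N = ⁅H, K₀⁆ ≤ H`, `H` normalises `N` (`normal_subgroupOf_commutator_sup`), so `N.subgroupOf H` is normal in the simple group `H`: it is `⊥` or `⊤`. If `⊥`: `N = ⊥`, `K₀ ≤ centralizer H` (`Subgroup.commutator_eq_bot_iff_le_centralizer`, with the sides exchanged by `Subgroup.commutator_comm`), so the relative index of `centralizer H` in `K` is not `0`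
  (`Subgroup.relIndex_ne_zero_of_le_left`-like: `relIndex_dvd_of_le_left`). If `⊤`: `N = H` is locally soluble, `simple_comm` for `Γ = H` (the closure in `H` of a finset `S` is isomorphic to the closure in `G` of its image: `Subgroup.map` of `closure`, `MonoidHom.map_closure`, solubility by an injective homomorphism), so `H` is commutative and simple, hence finite
  (`IsSimpleGroup.finite`-like: `IsSimpleGroup.isCyclic`, `IsSimpleGroup.prime_card`, `Nat.finite_of_card_ne_zero`; needs `CommGroup H`), `MulAut H` is finite, and `centralizer H` is the kernel of `MulAut.conjNormal : G →* MulAut H` (`MulAut.ker_conjNormal`-like or directly), which has finite index (`Subgroup.finiteIndex_ker`), and the relative index divides or is bounded by the index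
  (`Subgroup.relIndex_ne_zero`-type: `Subgroup.relIndex_dvd_index_of_normal` (the centralizer of a normal subgroup is normal)).
-/

set_option autoImplicit false

namespace MP0d06d9

open Subgroup

variable {G : Type*} [Group G]

theorem main1 (lf : LocFin G) (π : Set ℕ) (H K : Subgroup G) (hn : H.Normal)
    (hH : IsPi πᶜ H) (hK : IsPi π K) (hs : LocSol K ∨ LocSol H) (hsp : Sparse H K)
    (hsec : SecGalois π H) :
    ∃ K₀ : Subgroup G, K₀ ≤ K ∧ K₀.relIndex K ≠ 0 ∧ LocSol (⁅H, K₀⁆ : Subgroup G) ∧
      ∀ K₁ : Subgroup G, K₁ ≤ K₀ → ⁅⁅H, K₀⁆, K₁⁆ = ⁅H, K₁⁆ := by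
  rcases hs with hs | hs
  · obtain ⟨K₀, h1, h2, h3⟩ := exists_K0 (⟨lf, hn, hH, hK, hs, hsp, hsec⟩ : Ctx π H K)
    exact ⟨K₀, h1, h2, locsol_of lf hn h3, fun K₁ h4 => comm_eq lf hn hH hK h1 h4⟩
  · refine ⟨K, le_rfl, ?_, ?_, fun K₁ h4 => comm_eq lf hn hH hK le_rfl h4⟩
    · rw [relIndex_self]
      exact one_ne_zero
    · intro S hS
      have h1 : (⁅H, K⁆ : Subgroup G) ≤ H := commutator_le_left H K
      exact hs S (hS.trans h1)

private theorem main2_nor (H K₀ : Subgroup G) (h : G) (hh : h ∈ H) (n : G)
    (hn : n ∈ (⁅H, K₀⁆ : Subgroup G)) : h * n * h⁻¹ ∈ (⁅H, K₀⁆ : Subgroup G) := by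
  rw [Subgroup.commutator_def] at hn
  induction hn using Subgroup.closure_induction with
  | mem x hx =>
    obtain ⟨a, ha, k, hk, rfl⟩ := hx
    have h1 := Subgroup.commutator_mem_commutator (H.mul_mem hh ha) hk
    have h2 := Subgroup.commutator_mem_commutator hh hk
    have h3 : h * (a * k * a⁻¹ * k⁻¹) * h⁻¹ =
        (h * a * k * (h * a)⁻¹ * k⁻¹) * (h * k * h⁻¹ * k⁻¹)⁻¹ := by
      group
    have h4 := Subgroup.mul_mem _ h1 (Subgroup.inv_mem _ h2)
    change h * (a * k * a⁻¹ * k⁻¹) * h⁻¹ ∈ _
    rw [h3]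
    exact h4
  | one =>
    rw [mul_one, mul_inv_cancel]
    exact Subgroup.one_mem _
  | mul x y _ _ hx hy =>
    have h3 : h * (x * y) * h⁻¹ = (h * x * h⁻¹) * (h * y * h⁻¹) := by group
    rw [h3]
    exact Subgroup.mul_mem _ hx hy
  | inv x _ hx =>
    have h3 : h * x⁻¹ * h⁻¹ = (h * x * h⁻¹)⁻¹ := by group
    rw [h3]
    exact Subgroup.inv_mem _ hx

private theorem main2_sol (H : Subgroup G) (hH : LocSol H) (S : Finset H) :
    Group.IsSolvable (closure (S : Set H)) := by
  classical
  have h1 := hH (S.image Subtype.val) (by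
    intro x hx
    rw [Finset.coe_image] at hx
    obtain ⟨y, _, rfl⟩ := hx
    exact y.2)
  rw [Finset.coe_image] at h1
  have h2 : (closure (S : Set H)).map H.subtype = closure (Subtype.val '' (S : Set H)) :=
    MonoidHom.map_closure H.subtype _
  rw [← h2] at h1
  exact Group.isSolvable_of_isSolvable_injective
    (f := ((closure (S : Set H)).equivMapOfInjective H.subtype
      (Subgroup.subtype_injective H)).toMonoidHom)
    ((closure (S : Set H)).equivMapOfInjective H.subtype
      (Subgroup.subtype_injective H)).injective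

private theorem main2_fin {Γ : Type*} [Group Γ] [hs : IsSimpleGroup Γ]
    (hc : ∀ a b : Γ, a * b = b * a) : Finite Γ := by
  let : CommGroup Γ := { (inferInstance : Group Γ) with mul_comm := hc }
  exact IsSimpleGroup.finite (α := Γ)

theorem main2 (lf : LocFin G) (π : Set ℕ) (H K : Subgroup G) (hn : H.Normal)
    (hH : IsPi πᶜ H) (hK : IsPi π K) (hs : LocSol K ∨ LocSol H) (hsp : Sparse H K)
    (hsec : SecGalois π H) (hsim : IsSimpleGroup H) :
    (centralizer (H : Set G)).relIndex K ≠ 0 := by
  obtain ⟨K₀, h0, hri, hls, _⟩ := main1 lf π H K hn hH hK hs hsp hsec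
  have hNH : (⁅H, K₀⁆ : Subgroup G) ≤ H := Subgroup.commutator_le_left H K₀
  have hnor : ((⁅H, K₀⁆ : Subgroup G).subgroupOf H).Normal := by
    refine ⟨fun n hn g => ?_⟩
    rw [Subgroup.mem_subgroupOf] at hn ⊢
    exact main2_nor H K₀ g g.2 n hn
  rcases hsim.eq_bot_or_eq_top_of_normal _ hnor with hb | ht
  · rw [Subgroup.subgroupOf_eq_bot, disjoint_iff, inf_eq_left.2 hNH] at hb
    rw [Subgroup.commutator_comm, Subgroup.commutator_eq_bot_iff_le_centralizer] at hb
    intro h
    have h1 := Subgroup.relIndex_dvd_of_le_left K hb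
    rw [h] at h1
    exact hri (Nat.eq_zero_of_zero_dvd h1)
  · rw [Subgroup.subgroupOf_eq_top] at ht
    have hNe : (⁅H, K₀⁆ : Subgroup G) = H := le_antisymm hNH ht
    rw [hNe] at hls
    have hc : ∀ a b : H, a * b = b * a := simple_comm (main2_sol H hls)
    have hfin : Finite H := main2_fin hc
    have hfM : Finite (MulAut H) := inferInstance
    have hker : (MulAut.conjNormal (H := H) : G →* MulAut H).ker = centralizer (H : Set G) := by
      ext g
      rw [MonoidHom.mem_ker, Subgroup.mem_centralizer_iff]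
      constructor
      · intro h x hx
        have h1 := DFunLike.congr_fun h ⟨x, hx⟩
        have h2 := congrArg Subtype.val h1
        rw [MulAut.conjNormal_apply] at h2
        have h3 : g * x * g⁻¹ = x := h2
        calc x * g = (g * x * g⁻¹) * g := by rw [h3]
          _ = g * x := by group
      · intro h
        ext x
        rw [MulAut.conjNormal_apply]
        have h1 := h x x.2
        change g * (x : G) * g⁻¹ = x
        rw [← h1]
        group
    have hfi : (centralizer (H : Set G)).FiniteIndex := by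
      rw [← hker]
      exact Subgroup.finiteIndex_ker _
    have h1 : ((centralizer (H : Set G)).subgroupOf K).FiniteIndex := inferInstance
    exact h1.index_ne_zero

end MP0d06d9
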