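import Pool.Agent.Lib.MP_0d06d9_al.AbsB
import Pool.Agent.Lib.MP_0d06d9_al.Ker

/-!
# JOB Sel: the subgroup of finite index

PROOFS.
* `exists_ult`: the set `ι = {X : Subgroup G // X ≤ K ∧ Finite X}` is nonempty and directed: `X ⊔ Y` is finite, it is the closure of the finite set `X ∪ Y` (`lf`, `Subgroup.sup_eq_closure`). `𝔽` = the image under `Subtype.val` of an ultrafilter `≤ Filter.atTop` on `ι` (`Ultrafilter.of`, `Ultrafilter.map`; `Filter.eventually_ge_atTop`).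
* `exists_K0`. `𝔽` from `exists_ult`. `𝒰 = {U | ∃ s : Subgroup G → Subgroup G, (∀ X, X ≤ K → Finite X → Ker H X (s X)) ∧ ∀ x, x ∈ U ↔ ∀ᶠ X in 𝔽, x ∈ s X}`.
  `U ∈ 𝒰` is contained in `K`: `x ∈ s X ≤ X ≤ K` for some `X` (`Ker H X U` implies `U ≤ X`).
  Hypothesis `h` of `fin_family`: `L ≤ K`, `F` from `h.sp L`; `x ∈ L`: for `𝔽`-almost all `X`: `X ≤ K` finite, `F ≤ X`, `x ∈ X` (`closure {x}` (`zpowers x`) is finite by `lf`), so `ker_star`; `ulim_star`. So `𝒰` is finite, and every `U ∈ 𝒰` has finite index in `K` (`index_ne` with the `F` for `L = K`).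
  `K₀ = K ⊓ ⨅ U ∈ 𝒰, U`: finite relative index (`𝒰` is finite: induction on a finite set with `Subgroup.relIndex_inf_ne_zero`, or `Subgroup.relIndex_iInf_ne_zero`).
  Let `x ∈ K₀`. CLAIM `∀ᶠ X in 𝔽, ∀ U, Ker H X U → x ∈ U`. Otherwise `∀ᶠ X in 𝔽, ∃ U, Ker H X U ∧ x ∉ U` (`Ultrafilter.eventually_not`); let `s X` be such a `U` if there is one and `s X = X` otherwise; `s` is a selection; the ultralimit `U` of `s` (`ulim`) is in `𝒰` and `x ∉ U`
  (`Ultrafilter` : not both `x ∈ s X` and `x ∉ s X` eventually), but `x ∈ K₀ ≤ U`. For a finite set `T ⊆ K₀`: the intersection of finitely many such sets, and of the sets `{X | X ≤ K, X finite}` and `{X | closure T ≤ X}`, is in `𝔽`, so it is not empty.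
-/

set_option autoImplicit false

namespace MP0d06d9

open Subgroup

variable {G : Type*} [Group G]

theorem exists_ult (lf : LocFin G) (K : Subgroup G) : ∃ 𝔽 : Ultrafilter (Subgroup G),
    (∀ᶠ X in (𝔽 : Filter (Subgroup G)), X ≤ K ∧ Finite X) ∧
    ∀ F : Subgroup G, F ≤ K → Finite F → ∀ᶠ X in (𝔽 : Filter (Subgroup G)), F ≤ X := by
  classical
  have hsup : ∀ X Y : Subgroup G, Finite X → Finite Y → Finite (X ⊔ Y : Subgroup G) := by
    intro X Y hX hY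
    have h1 : ((X : Set G) ∪ (Y : Set G)).Finite :=
      Set.Finite.union (Set.toFinite _) (Set.toFinite _)
    have h2 := lf h1.toFinset
    rw [h1.coe_toFinset, ← Subgroup.sup_eq_closure] at h2
    exact h2
  have hne : Nonempty {X : Subgroup G // X ≤ K ∧ Finite X} :=
    ⟨⟨⊥, bot_le, inferInstance⟩⟩
  have hdir : IsDirectedOrder {X : Subgroup G // X ≤ K ∧ Finite X} :=
    ⟨fun X Y => ⟨⟨X.1 ⊔ Y.1, sup_le X.2.1 Y.2.1, hsup _ _ X.2.2 Y.2.2⟩,
      (le_sup_left : X.1 ≤ X.1 ⊔ Y.1), (le_sup_right : Y.1 ≤ X.1 ⊔ Y.1)⟩⟩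
  have hNB : (Filter.atTop : Filter {X : Subgroup G // X ≤ K ∧ Finite X}).NeBot := inferInstance
  refine ⟨(Ultrafilter.of
    (Filter.atTop : Filter {X : Subgroup G // X ≤ K ∧ Finite X})).map Subtype.val, ?_, ?_⟩
  · rw [Ultrafilter.coe_map, Filter.eventually_map]
    exact Filter.Eventually.of_forall fun X => X.2
  · intro F hF hFf
    rw [Ultrafilter.coe_map, Filter.eventually_map]
    have h1 : ∀ᶠ X in (Filter.atTop : Filter {X : Subgroup G // X ≤ K ∧ Finite X}),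
        (⟨F, hF, hFf⟩ : {X : Subgroup G // X ≤ K ∧ Finite X}) ≤ X := Filter.eventually_ge_atTop _
    have h2 := h1.filter_mono (Ultrafilter.of_le _)
    exact h2.mono fun X hX => hX

theorem exists_K0 {π : Set ℕ} {H K : Subgroup G} (h : Ctx π H K) :
    ∃ K₀ : Subgroup G, K₀ ≤ K ∧ K₀.relIndex K ≠ 0 ∧
      ∀ T : Finset G, (T : Set G) ⊆ K₀ → ∃ X : Subgroup G, X ≤ K ∧ Finite X ∧ (T : Set G) ⊆ X ∧
        ∀ x ∈ T, ∀ U, Ker H X U → x ∈ U := by
  classical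
  obtain ⟨𝔽, hF1, hF2⟩ := exists_ult h.lf K
  have hKX : ∀ X U : Subgroup G, Ker H X U → U ≤ X := by
    rintro X U (rfl | ⟨E, M, _, hU⟩)
    · exact le_rfl
    · exact fun x hx => ((hU x).1 hx).1
  obtain ⟨𝒰, h𝒰⟩ : ∃ 𝒰 : Set (Subgroup G), ∀ U, U ∈ 𝒰 ↔ ∃ s : Subgroup G → Subgroup G,
      (∀ X, Ker H X (s X)) ∧ ∀ x, x ∈ U ↔ ∀ᶠ X in (𝔽 : Filter (Subgroup G)), x ∈ s X :=
    ⟨{U | ∃ s : Subgroup G → Subgroup G,
      (∀ X, Ker H X (s X)) ∧ ∀ x, x ∈ U ↔ ∀ᶠ X in (𝔽 : Filter (Subgroup G)), x ∈ s X},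
      fun U => Iff.rfl⟩
  have hUK : ∀ U ∈ 𝒰, U ≤ K := by
    intro U hU x hx
    obtain ⟨s, hs, hUs⟩ := (h𝒰 U).1 hU
    obtain ⟨X, hX1, hX2⟩ := (((hUs x).1 hx).and hF1).exists
    exact hX2.1 (hKX X (s X) (hs X) hX1)
  have hstar : ∀ L : Subgroup G, L ≤ K → ∃ F : Subgroup G, F ≤ L ∧ Finite F ∧
      ∀ U ∈ 𝒰, ∀ x ∈ L, ∃ f ∈ F, f⁻¹ * x ∈ U := by
    intro L hL
    obtain ⟨F, hFL, hFf, hC⟩ := h.sp L hL
    refine ⟨F, hFL, hFf, fun U hU x hx => ?_⟩
    obtain ⟨s, hs, hUs⟩ := (h𝒰 U).1 hU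
    refine ulim_star 𝔽 s hUs hFf x ?_
    have hx1 : Finite (zpowers x) := by
      have h1 := h.lf {x}
      rw [Finset.coe_singleton, ← zpowers_eq_closure] at h1
      exact h1
    have hx2 : zpowers x ≤ K := zpowers_le.2 (hL hx)
    filter_upwards [hF1, hF2 F (hFL.trans hL) hFf, hF2 (zpowers x) hx2 hx1] with X hX hFX hxX
    exact ker_star h hL hFL hFf hC hX.1 hX.2 hFX (hs X) hx (hxX (mem_zpowers x))
  have hfin : 𝒰.Finite := fin_family K 𝒰 hUK hstar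
  have hind : ∀ U ∈ 𝒰, U.relIndex K ≠ 0 := by
    intro U hU
    obtain ⟨F, hFK, hFf, hF⟩ := hstar K le_rfl
    exact index_ne hFf hFK fun x hx => hF U hU x hx
  refine ⟨K ⊓ ⨅ U : 𝒰, (U : Subgroup G), inf_le_left, ?_, ?_⟩
  · rw [inf_relIndex_left]
    have : Finite 𝒰 := hfin.to_subtype
    exact relIndex_iInf_ne_zero fun U => hind U U.2
  · intro T hT
    have claim : ∀ x ∈ T, ∀ᶠ X in (𝔽 : Filter (Subgroup G)), ∀ U, Ker H X U → x ∈ U := by
      intro x hx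
      by_contra hn
      rw [← Ultrafilter.eventually_not] at hn
      obtain ⟨s, hs1, hs2⟩ : ∃ s : Subgroup G → Subgroup G, (∀ X, Ker H X (s X)) ∧
          ∀ X, (¬ ∀ U, Ker H X U → x ∈ U) → x ∉ s X := by
        refine ⟨fun X => if hX : ∃ U, Ker H X U ∧ x ∉ U then hX.choose else X, fun X => ?_,
          fun X hX => ?_⟩
        · by_cases hX : ∃ U, Ker H X U ∧ x ∉ U
          · simp only [dif_pos hX]
            exact hX.choose_spec.1
          · simp only [dif_neg hX]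
            exact Or.inl rfl
        · have hX' : ∃ U, Ker H X U ∧ x ∉ U := by
            by_contra h2
            refine hX fun U hU => ?_
            by_contra h3
            exact h2 ⟨U, hU, h3⟩
          simp only [dif_pos hX']
          exact hX'.choose_spec.2
      obtain ⟨V, hV⟩ := ulim (𝔽 : Filter (Subgroup G)) s
      have hV𝒰 : V ∈ 𝒰 := (h𝒰 V).2 ⟨s, hs1, hV⟩
      have hxV : x ∈ V := by
        have h2 := (mem_inf.1 (hT hx)).2
        exact (mem_iInf.1 h2) ⟨V, hV𝒰⟩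
      obtain ⟨X, hX1, hX2⟩ := (((hV x).1 hxV).and hn).exists
      exact hs2 X hX2 hX1
    have hTK : closure (T : Set G) ≤ K := by
      rw [closure_le]
      exact fun x hx => (mem_inf.1 (hT hx)).1
    obtain ⟨X, hX1, hX2, hX3⟩ := ((((Filter.eventually_all_finset T).2 claim).and
      (hF1.and (hF2 _ hTK (h.lf T))))).exists
    exact ⟨X, hX2.1, hX2.2, fun x hx => hX3 (subset_closure hx), hX1⟩

end MP0d06d9
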