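import Pool.Agent.Lib.MP_0d06d9_al.Defs

/-!
# JOB SolA: the perfect residual, finitely generated subgroups of commutators, Mal'cev's lemma

PROOFS.
* `exists_perfect`: `E = ⨆` of all `P ≤ D` with `⁅P, P⁆ = P` (`sSup`). `P = ⁅P, P⁆ ≤ ⁅E, E⁆` for each such `P`, so `E ≤ ⁅E, E⁆`, and `⁅E, E⁆ ≤ E` (`commutator_le`), `E ≤ D`. If `E = ⊥`: every perfect subgroup of `D` is trivial, so for every `N ≠ ⊥`, `N : Subgroup D`, `⁅N, N⁆ < N` (map to `G`: `Subgroup.map_commutator`), and
  `D` is soluble (`Group.isSolvable_iff_commutator_lt`). `g ∈ normalizer D`: conjugation by `g` permutes the perfect subgroups of `D`: `cj g P ≤ D`, `⁅cj g P, cj g P⁆ = cj g P` (`Subgroup.map_commutator`), so `cj g E ≤ E` and the same for `g⁻¹`: `cj_eq_iff`.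
* `fg_comm`: every element of `⁅H, K⁆ = closure {⁅h, k⁆}` is in the closure of finitely many commutators (`Subgroup.closure_induction`, or `Submonoid`-free: the set of the elements `y` for which there are finsets `A ⊆ H`, `B ⊆ K` with `y ∈ closure {⁅h, k⁆ | h ∈ A, k ∈ B}` is a subgroup); take the union over the finite set `S` (induction on `S`).
* `solv_mono`: subgroup of a soluble group (`Group.isSolvable_of_isSolvable_injective (Subgroup.inclusion_injective h)`).
* `simple_comm` (a locally soluble simple group is commutative): suppose `c = ⁅a, b⁆ ≠ 1`. The normal closure of `c` is `Γ`, so `a` and `b` are in `closure (conjugatesOfSet {c})` and hence in `closure {t c t⁻¹ | t ∈ A}` for a finite set `A`. Let `T = closure (A ∪ {a, b})`, soluble. `N = closure {t c t⁻¹ | t ∈ T}` (a subgroup of `T` as `c ∈ T`) contains `a` and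
  `b`, so `c ∈ ⁅N, N⁆`; `⁅N, N⁆` is normalised by `T` (`T` permutes the generators of `N`), so `N ≤ ⁅N, N⁆`. So `⁅N, N⁆ = N`, `N` is soluble (`solv_mono`), so `N = ⊥` (`Group.IsSolvable.commutator_lt_of_ne_bot` in the group `N` or `T`), `c = 1`.
-/

set_option autoImplicit false

namespace MP0d06d9

open Subgroup

variable {G : Type*} [Group G]

theorem exists_perfect {D : Subgroup G} (hD : Finite D) (hs : ¬ Group.IsSolvable D) :
    ∃ E : Subgroup G, E ≤ D ∧ E ≠ ⊥ ∧ ⁅E, E⁆ = E ∧
      normalizer (D : Set G) ≤ normalizer (E : Set G) := by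
  have hle : ∀ P : Subgroup G, ⁅P, P⁆ ≤ P := fun P => commutator_le.2 fun a ha b hb => by
    rw [commutatorElement_def]
    exact P.mul_mem (P.mul_mem (P.mul_mem ha hb) (P.inv_mem ha)) (P.inv_mem hb)
  refine ⟨sSup {P : Subgroup G | P ≤ D ∧ ⁅P, P⁆ = P}, sSup_le fun P hP => hP.1, ?_, ?_, ?_⟩
  · intro h0
    apply hs
    have : Finite (Subgroup D) := inferInstance
    have : WellFoundedLT (Subgroup D) := Finite.to_wellFoundedLT
    rw [Group.isSolvable_iff_commutator_lt]
    intro N hN
    refine lt_of_le_of_ne (commutator_le.2 fun a ha b hb => ?_) fun hNN => hN ?_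
    · rw [commutatorElement_def]
      exact N.mul_mem (N.mul_mem (N.mul_mem ha hb) (N.inv_mem ha)) (N.inv_mem hb)
    · have h1 : N.map D.subtype ∈ {P : Subgroup G | P ≤ D ∧ ⁅P, P⁆ = P} := by
        refine ⟨map_subtype_le N, ?_⟩
        rw [← map_commutator, hNN]
      have h2 : N.map D.subtype ≤ ⊥ := by
        rw [← h0]
        exact le_sSup h1
      exact (map_eq_bot_iff_of_injective N D.subtype_injective).1 (le_bot_iff.1 h2)
  · refine le_antisymm (hle _) (sSup_le fun P hP => ?_)
    calc P = ⁅P, P⁆ := hP.2.symm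
      _ ≤ _ := commutator_mono (le_sSup hP) (le_sSup hP)
  · intro g hg
    have key : ∀ x ∈ normalizer (D : Set G), cj x (sSup {P : Subgroup G | P ≤ D ∧ ⁅P, P⁆ = P}) ≤
        sSup {P : Subgroup G | P ≤ D ∧ ⁅P, P⁆ = P} := by
      intro x hx
      unfold cj
      rw [map_le_iff_le_comap]
      refine sSup_le fun P hP => ?_
      rw [← map_le_iff_le_comap]
      refine le_sSup ⟨?_, ?_⟩
      · exact (map_mono hP.1).trans (cj_eq_iff.2 hx).le
      · rw [← map_commutator, hP.2]
    rw [← cj_eq_iff]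
    refine le_antisymm (key g hg) ?_
    intro y hy
    rw [mem_cj]
    apply key g⁻¹ (inv_mem hg)
    rw [mem_cj]
    have e : g⁻¹⁻¹ * (g⁻¹ * y * g) * g⁻¹ = y := by group
    rwa [e]

theorem solv_mono {A B : Subgroup G} (h : A ≤ B) (hB : Group.IsSolvable B) :
    Group.IsSolvable A := by
  have := hB
  exact Group.isSolvable_of_isSolvable_injective (Subgroup.inclusion_injective h)

private theorem sola2_mono {A A' B B' : Finset G} (h : (A : Set G) ⊆ A')
    (h' : (B : Set G) ⊆ B') {y : G}
    (hy : y ∈ (⁅closure (A : Set G), closure (B : Set G)⁆ : Subgroup G)) :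
    y ∈ (⁅closure (A' : Set G), closure (B' : Set G)⁆ : Subgroup G) :=
  Subgroup.commutator_mono (closure_mono h) (closure_mono h') hy

private theorem sola2_one {H K : Subgroup G} {y : G} (hy : y ∈ (⁅H, K⁆ : Subgroup G)) :
    ∃ A B : Finset G, (A : Set G) ⊆ H ∧ (B : Set G) ⊆ K ∧
      y ∈ (⁅closure (A : Set G), closure (B : Set G)⁆ : Subgroup G) := by
  classical
  rw [Subgroup.commutator_def] at hy
  induction hy using Subgroup.closure_induction with
  | mem x hx =>
    obtain ⟨a, ha, b, hb, rfl⟩ := hx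
    refine ⟨{a}, {b}, ?_, ?_, ?_⟩
    · rw [Finset.coe_singleton, Set.singleton_subset_iff]
      exact ha
    · rw [Finset.coe_singleton, Set.singleton_subset_iff]
      exact hb
    · refine Subgroup.commutator_mem_commutator (subset_closure ?_) (subset_closure ?_)
      · exact Finset.mem_coe.2 (Finset.mem_singleton_self a)
      · exact Finset.mem_coe.2 (Finset.mem_singleton_self b)
  | one =>
    refine ⟨∅, ∅, ?_, ?_, one_mem _⟩
    · rw [Finset.coe_empty]
      exact Set.empty_subset _
    · rw [Finset.coe_empty]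
      exact Set.empty_subset _
  | mul x y _ _ hx hy =>
    obtain ⟨A, B, hA, hB, h1⟩ := hx
    obtain ⟨A', B', hA', hB', h2⟩ := hy
    refine ⟨A ∪ A', B ∪ B', ?_, ?_, mul_mem (sola2_mono ?_ ?_ h1) (sola2_mono ?_ ?_ h2)⟩
    · rw [Finset.coe_union]
      exact Set.union_subset hA hA'
    · rw [Finset.coe_union]
      exact Set.union_subset hB hB'
    · exact Finset.coe_subset.2 Finset.subset_union_left
    · exact Finset.coe_subset.2 Finset.subset_union_left
    · exact Finset.coe_subset.2 Finset.subset_union_right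
    · exact Finset.coe_subset.2 Finset.subset_union_right
  | inv x _ hx =>
    obtain ⟨A, B, hA, hB, h1⟩ := hx
    exact ⟨A, B, hA, hB, inv_mem h1⟩

theorem fg_comm {H K : Subgroup G} (S : Finset G) (hS : (S : Set G) ⊆ (⁅H, K⁆ : Subgroup G)) :
    ∃ A B : Finset G, (A : Set G) ⊆ H ∧ (B : Set G) ⊆ K ∧
      (S : Set G) ⊆ (⁅closure (A : Set G), closure (B : Set G)⁆ : Subgroup G) := by
  classical
  induction S using Finset.induction_on with
  | empty =>
    refine ⟨∅, ∅, ?_, ?_, ?_⟩
    · rw [Finset.coe_empty]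
      exact Set.empty_subset _
    · rw [Finset.coe_empty]
      exact Set.empty_subset _
    · rw [Finset.coe_empty]
      exact Set.empty_subset _
  | insert y S hy ih =>
    rw [Finset.coe_insert, Set.insert_subset_iff] at hS
    obtain ⟨A, B, hA, hB, h1⟩ := ih hS.2
    obtain ⟨A', B', hA', hB', h2⟩ := sola2_one hS.1
    refine ⟨A ∪ A', B ∪ B', ?_, ?_, ?_⟩
    · rw [Finset.coe_union]
      exact Set.union_subset hA hA'
    · rw [Finset.coe_union]
      exact Set.union_subset hB hB'
    · rw [Finset.coe_insert, Set.insert_subset_iff]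
      refine ⟨sola2_mono ?_ ?_ h2, fun x hx => sola2_mono ?_ ?_ (h1 hx)⟩
      · exact Finset.coe_subset.2 Finset.subset_union_right
      · exact Finset.coe_subset.2 Finset.subset_union_right
      · exact Finset.coe_subset.2 Finset.subset_union_left
      · exact Finset.coe_subset.2 Finset.subset_union_left

private theorem sola3_fin {Γ : Type*} [Group Γ] (c y : Γ)
    (hy : y ∈ closure (Group.conjugatesOfSet ({c} : Set Γ))) :
    ∃ A : Finset Γ, y ∈ closure ((fun t => t * c * t⁻¹) '' (A : Set Γ)) := by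
  classical
  induction hy using Subgroup.closure_induction with
  | mem x hx =>
    rw [Group.mem_conjugatesOfSet_iff] at hx
    obtain ⟨a, ha, hax⟩ := hx
    rw [Set.mem_singleton_iff] at ha
    subst ha
    obtain ⟨t, ht⟩ := isConj_iff.mp hax
    refine ⟨{t}, subset_closure ⟨t, ?_, ht⟩⟩
    rw [Finset.mem_coe, Finset.mem_singleton]
  | one => exact ⟨∅, one_mem _⟩
  | mul x z _ _ hx hz =>
    obtain ⟨A, hA⟩ := hx
    obtain ⟨B, hB⟩ := hz
    refine ⟨A ∪ B, mul_mem ?_ ?_⟩
    · refine closure_mono (Set.image_mono ?_) hA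
      rw [Finset.coe_union]
      exact Set.subset_union_left
    · refine closure_mono (Set.image_mono ?_) hB
      rw [Finset.coe_union]
      exact Set.subset_union_right
  | inv x _ hx =>
    obtain ⟨A, hA⟩ := hx
    exact ⟨A, inv_mem hA⟩

private theorem sola3_perf {Γ : Type*} [Group Γ] (N : Subgroup Γ) (hN : Group.IsSolvable N)
    (h : ⁅N, N⁆ = N) : N = ⊥ := by
  by_contra hne
  have hnt : (⊤ : Subgroup N) ≠ ⊥ := by
    intro h0
    apply hne
    have h1 := congrArg (Subgroup.map N.subtype) h0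
    rw [← MonoidHom.range_eq_map, Subgroup.range_subtype, Subgroup.map_bot] at h1
    exact h1
  have h2 := Group.IsSolvable.commutator_lt_of_ne_bot (G := N) hnt
  apply h2.ne
  apply Subgroup.map_injective N.subtype_injective
  rw [Subgroup.map_commutator, ← MonoidHom.range_eq_map, Subgroup.range_subtype, h]

theorem simple_comm {Γ : Type*} [Group Γ] [IsSimpleGroup Γ]
    (h : ∀ S : Finset Γ, Group.IsSolvable (closure (S : Set Γ))) (a b : Γ) : a * b = b * a := by
  classical
  by_contra hab
  have hc1 : a * b * a⁻¹ * b⁻¹ ≠ 1 := by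
    intro h0
    apply hab
    rw [mul_inv_eq_one, mul_inv_eq_iff_eq_mul] at h0
    exact h0
  obtain ⟨c, hc⟩ : ∃ c, c = a * b * a⁻¹ * b⁻¹ := ⟨_, rfl⟩
  rw [← hc] at hc1
  have htop : normalClosure ({c} : Set Γ) = ⊤ := by
    rcases (inferInstance : (normalClosure ({c} : Set Γ)).Normal).eq_bot_or_eq_top with h0 | h0
    · exfalso
      have h1 : c ∈ normalClosure ({c} : Set Γ) := subset_normalClosure (Set.mem_singleton c)
      rw [h0, Subgroup.mem_bot] at h1
      exact hc1 h1
    · exact h0
  have hall : ∀ y : Γ, y ∈ closure (Group.conjugatesOfSet ({c} : Set Γ)) := by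
    intro y
    have h1 : y ∈ normalClosure ({c} : Set Γ) := by
      rw [htop]
      trivial
    exact h1
  obtain ⟨A, hA⟩ := sola3_fin c a (hall a)
  obtain ⟨B, hB⟩ := sola3_fin c b (hall b)
  obtain ⟨S, hS⟩ : ∃ S : Finset Γ, S = A ∪ B ∪ {a, b} := ⟨_, rfl⟩
  have hT := h S
  obtain ⟨T, hTd⟩ : ∃ T : Subgroup Γ, T = closure (S : Set Γ) := ⟨_, rfl⟩
  rw [← hTd] at hT
  have hST : ∀ x ∈ S, x ∈ T := by
    intro x hx
    rw [hTd]
    exact subset_closure hx
  have haT : a ∈ T := hST a (by rw [hS]; simp)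
  have hbT : b ∈ T := hST b (by rw [hS]; simp)
  have hcT : c ∈ T := by
    rw [hc]
    exact mul_mem (mul_mem (mul_mem haT hbT) (inv_mem haT)) (inv_mem hbT)
  obtain ⟨N, hN⟩ : ∃ N : Subgroup Γ, N = closure ((fun t => t * c * t⁻¹) '' (T : Set Γ)) :=
    ⟨_, rfl⟩
  have hgen : ∀ t ∈ T, t * c * t⁻¹ ∈ N := by
    intro t ht
    rw [hN]
    exact subset_closure ⟨t, ht, rfl⟩
  have haN : a ∈ N := by
    rw [hN]
    refine closure_mono (Set.image_mono ?_) hA
    intro x hx
    refine hST x ?_
    rw [hS, Finset.mem_union, Finset.mem_union]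
    exact Or.inl (Or.inl hx)
  have hbN : b ∈ N := by
    rw [hN]
    refine closure_mono (Set.image_mono ?_) hB
    intro x hx
    refine hST x ?_
    rw [hS, Finset.mem_union, Finset.mem_union]
    exact Or.inl (Or.inr hx)
  have hcNN : c ∈ ⁅N, N⁆ := by
    rw [hc]
    exact commutator_mem_commutator haN hbN
  have hNT : N ≤ T := by
    rw [hN, closure_le]
    rintro _ ⟨t, ht, rfl⟩
    exact mul_mem (mul_mem ht hcT) (inv_mem ht)
  have hmap : ∀ t ∈ T, N.map (MulAut.conj t).toMonoidHom ≤ N := by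
    intro t ht
    rw [Subgroup.map_le_iff_le_comap]
    have h1 : ∀ s ∈ T, s * c * s⁻¹ ∈ N.comap (MulAut.conj t).toMonoidHom := by
      intro s hs
      rw [Subgroup.mem_comap]
      have h2 := hgen (t * s) (mul_mem ht hs)
      have h3 : (MulAut.conj t).toMonoidHom (s * c * s⁻¹) = t * s * c * (t * s)⁻¹ := by
        show t * (s * c * s⁻¹) * t⁻¹ = _
        group
      rw [h3]
      exact h2
    have h4 : closure ((fun t => t * c * t⁻¹) '' (T : Set Γ)) ≤
        N.comap (MulAut.conj t).toMonoidHom := by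
      rw [closure_le]
      rintro _ ⟨s, hs, rfl⟩
      exact h1 s hs
    rwa [← hN] at h4
  have hle : N ≤ ⁅N, N⁆ := by
    have h4 : closure ((fun t => t * c * t⁻¹) '' (T : Set Γ)) ≤ ⁅N, N⁆ := by
      rw [closure_le]
      rintro _ ⟨t, ht, rfl⟩
      have h5 : (MulAut.conj t).toMonoidHom c ∈ (⁅N, N⁆ : Subgroup Γ).map
          (MulAut.conj t).toMonoidHom := Subgroup.mem_map_of_mem _ hcNN
      rw [Subgroup.map_commutator] at h5
      exact commutator_mono (hmap t ht) (hmap t ht) h5
    rwa [← hN] at h4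
  have hNN : ⁅N, N⁆ = N := le_antisymm (commutator_le_self N) hle
  have hbot := sola3_perf N (solv_mono hNT hT) hNN
  rw [hbot] at haN
  rw [Subgroup.mem_bot] at haN
  apply hab
  rw [haN, one_mul, mul_one]

end MP0d06d9
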